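import Pool.Agent.N220.Kak.Union

set_option autoImplicit false

/-! A planar family of lines all of whose slices are small, at the optimal logarithmic rate, and the
product of such families. -/

open MeasureTheory Set ENNReal NNReal Metric
open Pool.Agent.H810R3.Tub (Space tube dir dir_sub_le tube_eq tube_closed Fe)

namespace Pool.Agent.N220.Kak

/-- The slope number `k` of `2 ^ m`. -/
noncomputable def cc (m k : ℕ) : ℝ := (k : ℝ) / 2 ^ m

/-- The first `j` binary digits of `k / 2 ^ m`. -/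
noncomputable def tr (m j k : ℕ) : ℝ := ((k / 2 ^ (m - j) : ℕ) : ℝ) / 2 ^ j

/-- The position of the line number `k`. -/
noncomputable def gg (m : ℕ) (h : ℝ) (k : ℕ) : ℝ := -(h * ∑ j ∈ Finset.range m, (cc m k - tr m j k))

theorem tr_tr {m l j : ℕ} (hj : j ≤ l) (hl : l ≤ m) (k : ℕ) : tr m j k = tr l j (k / 2 ^ (m - l)) := by
  unfold tr
  rw [Nat.div_div_eq_div_mul, ← pow_add]
  congr 4
  omega

theorem tr_self (m k : ℕ) : tr m m k = cc m k := by
  unfold tr cc
  simp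

theorem tr_le {m j : ℕ} (hj : j ≤ m) (k : ℕ) : tr m j k ≤ cc m k := by
  unfold tr cc
  have h1 : ((k / 2 ^ (m - j) : ℕ) : ℝ) ≤ (k : ℝ) / ((2 ^ (m - j) : ℕ) : ℝ) := Nat.cast_div_le
  have h2 : (2 : ℝ) ^ m = 2 ^ (m - j) * 2 ^ j := by rw [← pow_add]; congr 1; omega
  rw [h2, ← div_div]
  apply div_le_div_of_nonneg_right _ (by positivity)
  push_cast at h1
  exact h1

theorem le_tr {m j : ℕ} (hj : j ≤ m) (k : ℕ) : cc m k - tr m j k ≤ (1 / 2) ^ j := by
  unfold tr cc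
  have h1 : k < (k / 2 ^ (m - j) + 1) * 2 ^ (m - j) := by
    have h5 : 0 < 2 ^ (m - j) := pow_pos (by norm_num) _
    have := Nat.lt_mul_div_succ k h5
    rw [mul_comm]
    exact this
  have h2 : (2 : ℝ) ^ m = 2 ^ (m - j) * 2 ^ j := by rw [← pow_add]; congr 1; omega
  have h3 : (k : ℝ) ≤ (((k / 2 ^ (m - j) : ℕ) : ℝ) + 1) * 2 ^ (m - j) := by
    exact_mod_cast h1.le
  rw [h2, ← div_div, ← _root_.sub_div, one_div, inv_pow, ← one_div]
  apply div_le_div_of_nonneg_right _ (by positivity)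
  rw [sub_le_iff_le_add, div_le_iff₀ (by positivity)]
  linarith

/-- The lines with the same first `l` digits of the slope are close to each other at the heights
between `h l` and `h (l + 1)`. -/
theorem line_near {m l : ℕ} (hl : l ≤ m) {h t : ℝ} (hh : 0 ≤ h) (h1 : h * l ≤ t) (h2 : t ≤ h * l + h) (k : ℕ) :
    |(gg m h k + t * cc m k) - (gg l h (k / 2 ^ (m - l)) + t * cc l (k / 2 ^ (m - l)))| ≤
      3 * h * (1 / 2) ^ l := by
  set p : ℕ := k / 2 ^ (m - l) with hp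
  have e1 : cc l p = tr m l k := rfl
  have e2 : ∑ j ∈ Finset.range m, (cc m k - tr m j k) =
      ∑ j ∈ Finset.range l, (cc m k - tr m j k) + ∑ j ∈ Finset.Ico l m, (cc m k - tr m j k) := by
    rw [Finset.range_eq_Ico, Finset.range_eq_Ico, Finset.sum_Ico_consecutive _ (Nat.zero_le _) hl]
  have e3 : ∑ j ∈ Finset.range l, (cc l p - tr l j p) = ∑ j ∈ Finset.range l, (tr m l k - tr m j k) := by
    refine Finset.sum_congr rfl fun j hj => ?_
    rw [e1, tr_tr (Finset.mem_range.1 hj).le hl k]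
  have e4 : ∑ j ∈ Finset.range l, (cc m k - tr m j k) =
      ∑ j ∈ Finset.range l, (tr m l k - tr m j k) + l * (cc m k - tr m l k) := by
    have : ∑ j ∈ Finset.range l, (cc m k - tr m j k) =
        ∑ j ∈ Finset.range l, ((tr m l k - tr m j k) + (cc m k - tr m l k)) :=
      Finset.sum_congr rfl fun j _ => by ring
    rw [this, Finset.sum_add_distrib, Finset.sum_const, Finset.card_range, nsmul_eq_mul]
  have e5 : (gg m h k + t * cc m k) - (gg l h p + t * cc l p) =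
      (cc m k - tr m l k) * (t - h * l) - h * ∑ j ∈ Finset.Ico l m, (cc m k - tr m j k) := by
    unfold gg
    rw [e3, e2, e4, e1]
    ring
  have h3 : 0 ≤ cc m k - tr m l k := sub_nonneg.2 (tr_le hl k)
  have h4 := le_tr hl k
  have h5 : 0 ≤ ∑ j ∈ Finset.Ico l m, (cc m k - tr m j k) :=
    Finset.sum_nonneg fun j hj => sub_nonneg.2 (tr_le (Finset.mem_Ico.1 hj).2.le k)
  have h6 : ∑ j ∈ Finset.Ico l m, (cc m k - tr m j k) ≤ 2 * (1 / 2) ^ l := by
    calc ∑ j ∈ Finset.Ico l m, (cc m k - tr m j k) ≤ ∑ j ∈ Finset.Ico l m, (1 / 2 : ℝ) ^ j :=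
          Finset.sum_le_sum fun j hj => le_tr (Finset.mem_Ico.1 hj).2.le k
      _ ≤ 2 * (1 / 2) ^ l := by
          rw [geom_sum_Ico (by norm_num) hl]
          have h8 : (0 : ℝ) ≤ (1 / 2) ^ m := by positivity
          have h9 : ((1 / 2 : ℝ) ^ m - (1 / 2) ^ l) / (1 / 2 - 1) = 2 * ((1 / 2) ^ l - (1 / 2) ^ m) := by
            norm_num
            ring
          rw [h9]
          linarith
  have hpos : (0 : ℝ) ≤ (1 / 2) ^ l := by positivity
  rw [e5, abs_le]
  have h7 : (cc m k - tr m l k) * (t - h * l) ≤ (1 / 2) ^ l * h :=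
    mul_le_mul h4 (by linarith) (by linarith) hpos
  have h8 : 0 ≤ (cc m k - tr m l k) * (t - h * l) := mul_nonneg h3 (by linarith)
  have h9 : h * ∑ j ∈ Finset.Ico l m, (cc m k - tr m j k) ≤ h * (2 * (1 / 2) ^ l) :=
    mul_le_mul_of_nonneg_left h6 hh
  have h10 : 0 ≤ h * ∑ j ∈ Finset.Ico l m, (cc m k - tr m j k) := mul_nonneg hh h5
  constructor <;> nlinarith

/-- The slice of the planar family. -/
def slc (m : ℕ) (R ρ t : ℝ) : Set ℝ :=
  {x | ∃ k : ℕ, k < 2 ^ m ∧ |x - R * (gg m (2 / ((m : ℝ) + 1)) k + t * cc m k)| ≤ ρ}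

theorem slc_le (m : ℕ) {R ρ t : ℝ} (hR : 0 ≤ R) (hρ : 0 ≤ ρ) (hρR : ρ * 2 ^ m ≤ R) (ht0 : 0 ≤ t) (ht1 : t ≤ 1) :
    volume (slc m R ρ t) ≤ ENNReal.ofReal (16 * R / ((m : ℝ) + 1)) := by
  classical
  have hm1 : (0 : ℝ) < (m : ℝ) + 1 := by positivity
  set h : ℝ := 2 / ((m : ℝ) + 1) with hh
  have hh0 : 0 < h := by positivity
  set l : ℕ := ⌊t / h⌋₊ with hl
  have hth : 0 ≤ t / h := by positivity
  have h1 : h * l ≤ t := by
    have := Nat.floor_le hth
    rw [← hl, le_div_iff₀ hh0] at this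
    linarith
  have h2 : t ≤ h * l + h := by
    have := (Nat.lt_floor_add_one (t / h)).le
    rw [← hl, div_le_iff₀ hh0] at this
    linarith
  have h3 : 2 * l ≤ m + 1 := by
    have h4 : h * l ≤ 1 := h1.trans ht1
    rw [hh, div_mul_eq_mul_div, div_le_one hm1] at h4
    exact_mod_cast h4
  have hlm : l ≤ m := by omega
  have hsub : slc m R ρ t ⊆ ⋃ p ∈ Finset.range (2 ^ l), Icc (R * (gg l h p + t * cc l p) - (R * (3 * h * (1 / 2) ^ l) + ρ))
      (R * (gg l h p + t * cc l p) + (R * (3 * h * (1 / 2) ^ l) + ρ)) := by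
    rintro x ⟨k, hk, hx⟩
    have hp : k / 2 ^ (m - l) < 2 ^ l := by
      apply Nat.div_lt_of_lt_mul
      rw [← pow_add]
      have : m - l + l = m := by omega
      rw [this]
      exact hk
    have h5 := line_near hlm hh0.le h1 h2 k
    rw [mem_iUnion₂]
    refine ⟨k / 2 ^ (m - l), Finset.mem_range.2 hp, ?_⟩
    set p := k / 2 ^ (m - l) with hpdef
    have h6 : |x - R * (gg l h p + t * cc l p)| ≤ R * (3 * h * (1 / 2) ^ l) + ρ := by
      have e : x - R * (gg l h p + t * cc l p) = (x - R * (gg m h k + t * cc m k)) +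
          R * ((gg m h k + t * cc m k) - (gg l h p + t * cc l p)) := by ring
      rw [e]
      refine (abs_add_le _ _).trans ?_
      rw [abs_mul, abs_of_nonneg hR]
      have := mul_le_mul_of_nonneg_left h5 hR
      linarith
    have := abs_le.1 h6
    exact ⟨by linarith, by linarith⟩
  refine (measure_mono hsub).trans ((measure_biUnion_finset_le _ _).trans ?_)
  have hvol : ∀ p : ℕ, volume (Icc (R * (gg l h p + t * cc l p) - (R * (3 * h * (1 / 2) ^ l) + ρ))
      (R * (gg l h p + t * cc l p) + (R * (3 * h * (1 / 2) ^ l) + ρ))) =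
      ENNReal.ofReal (2 * (R * (3 * h * (1 / 2) ^ l) + ρ)) := by
    intro p
    rw [Real.volume_Icc]
    congr 1
    ring
  simp only [hvol]
  rw [Finset.sum_const, Finset.card_range, nsmul_eq_mul, ← ENNReal.ofReal_natCast,
    ← ENNReal.ofReal_mul (Nat.cast_nonneg _)]
  apply ENNReal.ofReal_le_ofReal
  push_cast
  have e1 : (2 : ℝ) ^ l * (1 / 2) ^ l = 1 := by
    rw [← mul_pow]
    norm_num
  have h7 : ((m : ℝ) + 1) * 2 ^ l ≤ 2 * 2 ^ m := by
    have h8 : m + 1 ≤ 2 * 2 ^ (m - l) := by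
      have h9 : m - l + 1 ≤ 2 ^ (m - l) := Nat.lt_two_pow_self
      omega
    have h10 : (m + 1) * 2 ^ l ≤ 2 * 2 ^ m := by
      calc (m + 1) * 2 ^ l ≤ (2 * 2 ^ (m - l)) * 2 ^ l := Nat.mul_le_mul_right _ h8
        _ = 2 * 2 ^ m := by
            rw [mul_assoc, ← pow_add]
            congr 2
            omega
    exact_mod_cast h10
  have h8 : ρ * 2 ^ l * ((m : ℝ) + 1) ≤ 2 * R := by
    calc ρ * 2 ^ l * ((m : ℝ) + 1) = ρ * (((m : ℝ) + 1) * 2 ^ l) := by ring
      _ ≤ ρ * (2 * 2 ^ m) := mul_le_mul_of_nonneg_left h7 hρ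
      _ = 2 * (ρ * 2 ^ m) := by ring
      _ ≤ 2 * R := by linarith
  rw [le_div_iff₀ hm1]
  have e2 : h * ((m : ℝ) + 1) = 2 := by rw [hh]; field_simp
  calc (2 : ℝ) ^ l * (2 * (R * (3 * h * (1 / 2) ^ l) + ρ)) * ((m : ℝ) + 1)
      = 6 * R * (2 ^ l * (1 / 2) ^ l) * (h * ((m : ℝ) + 1)) + 2 * (ρ * 2 ^ l * ((m : ℝ) + 1)) := by ring
    _ = 12 * R + 2 * (ρ * 2 ^ l * ((m : ℝ) + 1)) := by rw [e1, e2]; ring
    _ ≤ 16 * R := by linarith

end Pool.Agent.N220.Kak
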