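import Pool.Agent.N220.Kak.Keich

set_option autoImplicit false

/-! The product of planar families of lines with small slices. -/

open MeasureTheory Set ENNReal NNReal Metric
open Pool.Agent.R134.Kak (Vec fub)
open Pool.Agent.H810R3.Tub (Space tube dir dir_sub_le tube_eq tube_closed Fe)

namespace Pool.Agent.N220.Kak

/-- The slopes. -/
noncomputable def kv (d m : ℕ) (R : ℝ) (i : Fin d → Fin (2 ^ m)) : Vec d :=
  WithLp.toLp 2 (fun j => R * cc m (i j))

/-- The positions. -/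
noncomputable def kb (d m : ℕ) (R : ℝ) (i : Fin d → Fin (2 ^ m)) : Vec d :=
  WithLp.toLp 2 (fun j => R * (3 * gg m (2 / ((m : ℝ) + 1)) (i j) + 3 / 2 * cc m (i j)))

theorem slc_meas (m : ℕ) (R ρ t : ℝ) : MeasurableSet (slc m R ρ t) := by
  have e : slc m R ρ t = ⋃ k ∈ Finset.range (2 ^ m),
      {x | |x - R * (gg m (2 / ((m : ℝ) + 1)) k + t * cc m k)| ≤ ρ} := by
    ext x
    simp only [slc, mem_ofPred_eq, mem_iUnion, Finset.mem_range, exists_prop]
  rw [e]
  refine Finset.measurableSet_biUnion _ fun k _ => ?_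
  exact (isClosed_le (by fun_prop) continuous_const).measurableSet

theorem vol_cube {d : ℕ} (A : Set ℝ) (hA : MeasurableSet A) :
    volume {x : Vec d | ∀ j, x j ∈ A} = volume A ^ d := by
  have hS : MeasurableSet {x : Vec d | ∀ j, x j ∈ A} := by
    have : {x : Vec d | ∀ j, x j ∈ A} = ⋂ j, {x : Vec d | x j ∈ A} := by
      ext x
      simp
    rw [this]
    refine MeasurableSet.iInter fun j => ?_
    exact (by fun_prop : Continuous (fun x : Vec d => x j)).measurable hA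
  have h := (PiLp.volume_preserving_toLp (Fin d)).measure_preimage hS.nullMeasurableSet
  rw [← h]
  have e : (WithLp.toLp 2 : (Fin d → ℝ) → Vec d) ⁻¹' {x : Vec d | ∀ j, x j ∈ A} = Set.pi univ (fun _ => A) := by
    ext x
    simp
  rw [e, volume_pi_pi]
  simp

theorem keich_union (e m : ℕ) {δ : ℝ} (hδ : 0 < δ) (h1 : 3 * ((e : ℝ) + 1) * (2 ^ m * δ) ≤ 1)
    (hv : ∀ i : Fin (e + 1) → Fin (2 ^ m), ‖kv (e + 1) m (3 * (2 ^ m * δ)) i‖ ≤ 1) :
    volume (⋃ i : Fin (e + 1) → Fin (2 ^ m), tube δ (dir (kv (e + 1) m (3 * (2 ^ m * δ)) i))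
      (WithLp.toLp 2 (kb (e + 1) m (3 * (2 ^ m * δ)) i + (0 : ℝ) • kv (e + 1) m (3 * (2 ^ m * δ)) i, 0))) ≤
      ENNReal.ofReal (3 * (144 * (2 ^ m * δ) / ((m : ℝ) + 1)) ^ (e + 1)) := by
  classical
  set R : ℝ := 3 * (2 ^ m * δ) with hR
  have hR0 : 0 < R := by positivity
  have h2m : (1 : ℝ) ≤ 2 ^ m := one_le_pow₀ (by norm_num)
  have he : (0 : ℝ) ≤ e := Nat.cast_nonneg e
  have hδ1 : δ < 1 := by
    have h2 : δ ≤ 2 ^ m * δ := le_mul_of_one_le_left hδ.le h2m
    have h3 : 0 < 2 ^ m * δ := by positivity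
    nlinarith
  set T : Set (Space (e + 1)) := ⋃ i : Fin (e + 1) → Fin (2 ^ m), tube δ (dir (kv (e + 1) m R i))
      (WithLp.toLp 2 (kb (e + 1) m R i + (0 : ℝ) • kv (e + 1) m R i, 0)) with hT
  have hTm : MeasurableSet T := MeasurableSet.iUnion fun i => (tube_closed _ _ _).measurableSet
  rw [← lintegral_indicator_one hTm, fub (measurable_one.indicator hTm)]
  set B : ℝ → Set (Vec (e + 1)) := fun t => {x | ∀ j, x j ∈ slc m (3 * R) (2 * δ) (t / 3 + 1 / 2)} with hB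
  have hBm : ∀ t, MeasurableSet (B t) := by
    intro t
    have : B t = ⋂ j, {x : Vec (e + 1) | x j ∈ slc m (3 * R) (2 * δ) (t / 3 + 1 / 2)} := by
      ext x
      simp [hB]
    rw [this]
    refine MeasurableSet.iInter fun j => ?_
    exact (by fun_prop : Continuous (fun x : Vec (e + 1) => x j)).measurable (slc_meas _ _ _ _)
  have hpt : ∀ t x, T.indicator (1 : Space (e + 1) → ℝ≥0∞) (WithLp.toLp 2 (x, t)) ≤
      (Icc (-(3 / 2) : ℝ) (3 / 2)).indicator (fun t => (B t).indicator (fun _ => (1 : ℝ≥0∞)) x) t := by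
    intro t x
    by_cases hx : (WithLp.toLp 2 (x, t) : Space (e + 1)) ∈ T
    · obtain ⟨i, hi⟩ := mem_iUnion.1 hx
      rw [tube_eq] at hi
      obtain ⟨ht, hx2⟩ := Pool.Agent.H803R2.KakFTO.tube_subset hδ hδ1 (fun _ => kb (e + 1) m R i) (hv i) 0 hi
      have ht' : t ∈ Icc (-(3 / 2) : ℝ) (3 / 2) := ⟨by linarith [ht.1], by linarith [ht.2]⟩
      have hxB : x ∈ B t := by
        intro j
        refine ⟨i j, (i j).2, ?_⟩
        have h3 := (PiLp.norm_apply_le (x - (kb (e + 1) m R i + t • kv (e + 1) m R i)) j).trans hx2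
        rw [Real.norm_eq_abs] at h3
        have e3 : (x - (kb (e + 1) m R i + t • kv (e + 1) m R i)) j =
            x j - 3 * R * (gg m (2 / ((m : ℝ) + 1)) (i j) + (t / 3 + 1 / 2) * cc m (i j)) := by
          show x j - (R * (3 * gg m (2 / ((m : ℝ) + 1)) (i j) + 3 / 2 * cc m (i j)) + t * (R * cc m (i j))) = _
          ring
        rw [e3] at h3
        exact h3
      rw [indicator_of_mem hx, indicator_of_mem ht', indicator_of_mem hxB]
      exact le_rfl
    · rw [indicator_of_notMem hx]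
      exact zero_le
  calc ∫⁻ t : ℝ, ∫⁻ x : Vec (e + 1), T.indicator (1 : Space (e + 1) → ℝ≥0∞) (WithLp.toLp 2 (x, t))
      ≤ ∫⁻ t : ℝ, (Icc (-(3 / 2) : ℝ) (3 / 2)).indicator
          (fun _ => ENNReal.ofReal ((144 * (2 ^ m * δ) / ((m : ℝ) + 1)) ^ (e + 1))) t := by
        refine lintegral_mono fun t => ?_
        refine (lintegral_mono fun x => hpt t x).trans ?_
        by_cases ht : t ∈ Icc (-(3 / 2) : ℝ) (3 / 2)
        · simp only [indicator_of_mem ht]
          rw [lintegral_indicator_const (hBm t), one_mul, hB]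
          show volume {x : Vec (e + 1) | ∀ j, x j ∈ slc m (3 * R) (2 * δ) (t / 3 + 1 / 2)} ≤ _
          rw [vol_cube _ (slc_meas _ _ _ _), ENNReal.ofReal_pow (by positivity)]
          apply pow_le_pow_left' 
          refine (slc_le m (by positivity) (by positivity) ?_ (by linarith [ht.1]) (by linarith [ht.2])).trans ?_
          · rw [hR]
            have : 0 < 2 ^ m * δ := by positivity
            nlinarith
          · apply ENNReal.ofReal_le_ofReal
            apply le_of_eq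
            rw [hR]
            ring
        · simp only [indicator_of_notMem ht]
          simp
    _ = ENNReal.ofReal (3 * (144 * (2 ^ m * δ) / ((m : ℝ) + 1)) ^ (e + 1)) := by
        rw [lintegral_indicator_const measurableSet_Icc, Real.volume_Icc, ← ENNReal.ofReal_mul (by positivity)]
        congr 1
        ring

/-- The slopes are at most one. -/
theorem kv_norm (e m : ℕ) {δ : ℝ} (hδ : 0 < δ) (h1 : 3 * ((e : ℝ) + 1) * (2 ^ m * δ) ≤ 1)
    (i : Fin (e + 1) → Fin (2 ^ m)) : ‖kv (e + 1) m (3 * (2 ^ m * δ)) i‖ ≤ 1 := by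
  have h2 : ‖kv (e + 1) m (3 * (2 ^ m * δ)) i‖ ^ 2 ≤ 1 := by
    rw [EuclideanSpace.norm_sq_eq]
    have h3 : ∀ j, ‖kv (e + 1) m (3 * (2 ^ m * δ)) i j‖ ^ 2 ≤ (1 / ((e : ℝ) + 1)) ^ 2 := by
      intro j
      have hc0 : 0 ≤ cc m (i j) := by unfold cc; positivity
      have hc1 : cc m (i j) ≤ 1 := by
        unfold cc
        rw [div_le_one (by positivity)]
        exact_mod_cast (i j).2.le
      show ‖3 * (2 ^ m * δ) * cc m (i j)‖ ^ 2 ≤ _
      rw [Real.norm_of_nonneg (by positivity)]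
      apply pow_le_pow_left₀ (by positivity)
      rw [le_div_iff₀ (by positivity)]
      have h4 : 3 * (2 ^ m * δ) * cc m (i j) ≤ 3 * (2 ^ m * δ) * 1 := mul_le_mul_of_nonneg_left hc1 (by positivity)
      have he : (0 : ℝ) ≤ (e : ℝ) + 1 := by positivity
      nlinarith
    calc ∑ j, ‖kv (e + 1) m (3 * (2 ^ m * δ)) i j‖ ^ 2 ≤ ∑ _j : Fin (e + 1), (1 / ((e : ℝ) + 1)) ^ 2 :=
          Finset.sum_le_sum fun j _ => h3 j
      _ = 1 / ((e : ℝ) + 1) := by
          rw [Finset.sum_const, Finset.card_univ, Fintype.card_fin, nsmul_eq_mul]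
          push_cast
          field_simp
      _ ≤ 1 := by
          rw [div_le_one (by positivity)]
          have : (0 : ℝ) ≤ e := Nat.cast_nonneg e
          linarith
  nlinarith [norm_nonneg (kv (e + 1) m (3 * (2 ^ m * δ)) i)]

/-- The coordinates of the slopes determine each other. -/
theorem kv_eq (d m : ℕ) {δ : ℝ} (hδ : 0 < δ) (i i' : Fin d → Fin (2 ^ m)) (j : Fin d)
    (h : |kv d m (3 * (2 ^ m * δ)) i j - kv d m (3 * (2 ^ m * δ)) i' j| < 3 * δ) : i j = i' j := by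
  have e : kv d m (3 * (2 ^ m * δ)) i j - kv d m (3 * (2 ^ m * δ)) i' j =
      3 * δ * (((i j : ℕ) : ℝ) - ((i' j : ℕ) : ℝ)) := by
    show 3 * (2 ^ m * δ) * (((i j : ℕ) : ℝ) / 2 ^ m) - 3 * (2 ^ m * δ) * (((i' j : ℕ) : ℝ) / 2 ^ m) = _
    field_simp
  rw [e, abs_mul, abs_of_pos (by positivity)] at h
  have h2 : |((i j : ℕ) : ℝ) - ((i' j : ℕ) : ℝ)| < 1 := by
    by_contra h3
    push Not at h3
    have : 3 * δ * 1 ≤ 3 * δ * |((i j : ℕ) : ℝ) - ((i' j : ℕ) : ℝ)| :=
      mul_le_mul_of_nonneg_left h3 (by positivity)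
    linarith
  have h3 : |((i j : ℕ) : ℤ) - ((i' j : ℕ) : ℤ)| < 1 := by
    exact_mod_cast h2
  rw [Int.abs_lt_one_iff] at h3
  apply Fin.ext
  omega

theorem kv_sep (d m : ℕ) {δ : ℝ} (hδ : 0 < δ) {i i' : Fin d → Fin (2 ^ m)} (h : i ≠ i') :
    3 * δ ≤ ‖kv d m (3 * (2 ^ m * δ)) i - kv d m (3 * (2 ^ m * δ)) i'‖ := by
  by_contra h2
  push Not at h2
  apply h
  funext j
  apply kv_eq d m hδ
  have h3 := PiLp.norm_apply_le (kv d m (3 * (2 ^ m * δ)) i - kv d m (3 * (2 ^ m * δ)) i') j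
  rw [Real.norm_eq_abs] at h3
  exact lt_of_le_of_lt h3 h2

/-- The direction determines the slope. -/
theorem dir_sep {d : ℕ} (v w : Vec d) (hv : ‖v‖ ≤ 1) (hw : ‖w‖ ≤ 1) : ‖v - w‖ ≤ 3 * ‖dir v - dir w‖ := by
  set a : ℝ := (√(1 + ‖v‖ ^ 2))⁻¹ with ha
  set b : ℝ := (√(1 + ‖w‖ ^ 2))⁻¹ with hb
  set D : ℝ := ‖dir v - dir w‖ with hD
  have e : dir v - dir w = WithLp.toLp 2 (a • v - b • w, a - b) := by
    show a • (WithLp.toLp 2 (v, (1:ℝ)) : Space d) - b • (WithLp.toLp 2 (w, (1:ℝ)) : Space d) = _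
    rw [← WithLp.toLp_smul, ← WithLp.toLp_smul, ← WithLp.toLp_sub]
    congr 1
    ext
    · rfl
    · simp
  have h0 : D ^ 2 = ‖a • v - b • w‖ ^ 2 + |a - b| ^ 2 := by
    rw [hD, e, WithLp.prod_norm_sq_eq_of_L2]
    rfl
  have hD0 : 0 ≤ D := norm_nonneg _
  have h1 : ‖a • v - b • w‖ ≤ D := by
    apply le_of_sq_le_sq _ hD0
    nlinarith [sq_nonneg |a - b|]
  have h2 : |a - b| ≤ D := by
    apply le_of_sq_le_sq _ hD0
    nlinarith [sq_nonneg ‖a • v - b • w‖]
  have ha0 : 2 / 3 ≤ a := by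
    have h3 : √(1 + ‖v‖ ^ 2) ≤ 3 / 2 := by
      rw [Real.sqrt_le_left (by norm_num)]
      nlinarith [norm_nonneg v]
    have h4 : 0 < √(1 + ‖v‖ ^ 2) := Real.sqrt_pos.2 (by positivity)
    rw [ha, inv_eq_one_div, le_div_iff₀ h4]
    linarith
  have h5 : a • (v - w) = (a • v - b • w) + (b - a) • w := by
    rw [smul_sub, sub_smul]
    abel
  have h6 : a * ‖v - w‖ ≤ 2 * D := by
    calc a * ‖v - w‖ = ‖a • (v - w)‖ := by rw [norm_smul, Real.norm_of_nonneg (by linarith)]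
      _ ≤ ‖a • v - b • w‖ + ‖(b - a) • w‖ := by rw [h5]; exact norm_add_le _ _
      _ ≤ D + |b - a| * ‖w‖ := by rw [norm_smul, Real.norm_eq_abs]; gcongr
      _ ≤ D + D * 1 := by
          rw [abs_sub_comm]
          gcongr
      _ = 2 * D := by ring
  nlinarith [norm_nonneg (v - w)]

end Pool.Agent.N220.Kak
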