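import Pool.Agent.N220.Kak.Keich2

set_option autoImplicit false

/-! Lower bounds for the mixed norms of the product family. -/

open MeasureTheory Set ENNReal NNReal Metric
open Pool.Agent.R134.Kak (Vec fub)
open Pool.Agent.H810R3.Tub (Space tube dir dir_sub_le tube_eq tube_closed Fe)

namespace Pool.Agent.N220.Kak

/-- The integral over a slice near the height `0`. -/
theorem slice_ge {d : ℕ} {ι : Type} [Fintype ι] {δ : ℝ} (hδ : 0 < δ) (hδ1 : δ < 1) (v β : ι → Vec d)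
    (hv : ∀ i, ‖v i‖ ≤ 1) {t : ℝ} (ht : t ∈ Icc (-(1 / 8) : ℝ) (1 / 8)) :
    Fintype.card ι * volume (closedBall (0 : Vec d) (δ / 4)) ≤ ∫⁻ x, Fe δ v β (fun _ => 0) x t := by
  classical
  have hm : ∀ i, Measurable (fun x : Vec d => (tube δ (dir (v i)) (WithLp.toLp 2 (β i + (0 : ℝ) • v i, 0))).indicator
      (fun _ => (1 : ℝ≥0∞)) (WithLp.toLp 2 (x, t))) := by
    intro i
    have h1 : Measurable (fun y : Space d => (tube δ (dir (v i)) (WithLp.toLp 2 (β i + (0 : ℝ) • v i, 0))).indicator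
      (fun _ => (1 : ℝ≥0∞)) y) := measurable_const.indicator (tube_closed _ _ _).measurableSet
    have h2 : Measurable (fun x : Vec d => (WithLp.toLp 2 (x, t) : Space d)) := by
      have := (WithLp.volume_preserving_toLp (Vec d) ℝ).measurable
      exact this.comp (measurable_id.prodMk measurable_const)
    exact h1.comp h2
  unfold Fe
  rw [lintegral_finsetSum _ (fun i _ => hm i)]
  calc (Fintype.card ι : ℝ≥0∞) * volume (closedBall (0 : Vec d) (δ / 4))
      = ∑ _i : ι, volume (closedBall (0 : Vec d) (δ / 4)) := by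
        rw [Finset.sum_const, Finset.card_univ, nsmul_eq_mul]
    _ ≤ _ := Finset.sum_le_sum fun i _ => by
        rw [← Measure.addHaar_closedBall_center volume (β i + t • v i),
          ← lintegral_indicator_one measurableSet_closedBall]
        refine lintegral_mono fun x => ?_
        by_cases hx : x ∈ closedBall (β i + t • v i) (δ / 4)
        · have hx2 : ‖x - (β i + t • v i)‖ ≤ δ / 4 := by
            rw [mem_closedBall, dist_eq_norm] at hx
            exact hx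
          have h3 := Pool.Agent.H803R2.KakFTO.subset_tube hδ hδ1 (fun _ => β i) (hv i) 0
            (t := t) ⟨by linarith [ht.1], by linarith [ht.2]⟩ hx2
          have h4 : (WithLp.toLp 2 (x, t) : Space d) ∈ tube δ (dir (v i)) (WithLp.toLp 2 (β i + (0 : ℝ) • v i, 0)) := by
            rw [tube_eq]
            exact h3
          rw [indicator_of_mem hx, indicator_of_mem h4]
          exact le_rfl
        · rw [indicator_of_notMem hx]
          exact zero_le

/-- Hölder's inequality for the slices. -/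
theorem slice_holder {d : ℕ} {F : Vec d → ℝ≥0∞} (hm : Measurable F) (B : Set (Vec d))
    (hB : MeasurableSet B) (hsub : ∀ x, F x ≠ 0 → x ∈ B) {θ : ℝ} (h0 : 0 < θ) (h1 : θ < 1) :
    ∫⁻ x, F x ≤ (∫⁻ x, F x ^ (1 / θ)) ^ θ * volume B ^ (1 - θ) := by
  have h2 := ENNReal.lintegral_mul_norm_pow_le (μ := (volume : Measure (Vec d)))
    (f := fun x => F x ^ (1 / θ)) (g := B.indicator (fun _ => (1 : ℝ≥0∞)))
    (hm.pow_const _).aemeasurable (measurable_const.indicator hB).aemeasurable h0.le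
    (by linarith : (0 : ℝ) ≤ 1 - θ) (by ring)
  rw [lintegral_indicator_const hB, one_mul] at h2
  refine le_trans (lintegral_mono fun x => ?_) h2
  show F x ≤ (F x ^ (1 / θ)) ^ θ * B.indicator (fun _ => (1 : ℝ≥0∞)) x ^ (1 - θ)
  rw [← ENNReal.rpow_mul, one_div_mul_cancel h0.ne', ENNReal.rpow_one]
  by_cases hx : x ∈ B
  · rw [indicator_of_mem hx, ENNReal.one_rpow, mul_one]
  · have : F x = 0 := by
      by_contra h
      exact hx (hsub x h)
    rw [this]
    exact zero_le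

theorem Fe_meas1 {d : ℕ} {ι : Type} [Fintype ι] (δ : ℝ) (v β : ι → Vec d) (s : ι → ℝ) (t : ℝ) :
    Measurable (fun x : Vec d => Fe δ v β s x t) := by
  unfold Fe
  refine Finset.measurable_fun_sum _ fun i _ => ?_
  have h1 : Measurable (fun y : Space d => (tube δ (dir (v i)) (WithLp.toLp 2 (β i + s i • v i, s i))).indicator
    (fun _ => (1 : ℝ≥0∞)) y) := measurable_const.indicator (tube_closed _ _ _).measurableSet
  have h2 : Measurable (fun x : Vec d => (WithLp.toLp 2 (x, t) : Space d)) := by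
    have := (WithLp.volume_preserving_toLp (Vec d) ℝ).measurable
    exact this.comp (measurable_id.prodMk measurable_const)
  exact h1.comp h2

/-- The set that contains the slices of the product family. -/
def kB (e m : ℕ) (δ t : ℝ) : Set (Vec (e + 1)) :=
  {x | ∀ j, x j ∈ slc m (3 * (3 * (2 ^ m * δ))) (2 * δ) (t / 3 + 1 / 2)}

theorem kB_meas (e m : ℕ) (δ t : ℝ) : MeasurableSet (kB e m δ t) := by
  have : kB e m δ t = ⋂ j, {x : Vec (e + 1) | x j ∈ slc m (3 * (3 * (2 ^ m * δ))) (2 * δ) (t / 3 + 1 / 2)} := by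
    ext x
    simp [kB]
  rw [this]
  refine MeasurableSet.iInter fun j => ?_
  exact (by fun_prop : Continuous (fun x : Vec (e + 1) => x j)).measurable (slc_meas _ _ _ _)

theorem kB_vol (e m : ℕ) {δ t : ℝ} (hδ : 0 < δ) (ht : t ∈ Icc (-(3 / 2) : ℝ) (3 / 2)) :
    volume (kB e m δ t) ≤ ENNReal.ofReal ((144 * (2 ^ m * δ) / ((m : ℝ) + 1)) ^ (e + 1)) := by
  unfold kB
  rw [vol_cube _ (slc_meas _ _ _ _), ENNReal.ofReal_pow (by positivity)]
  apply pow_le_pow_left'
  refine (slc_le m (by positivity) (by positivity) ?_ (by linarith [ht.1]) (by linarith [ht.2])).trans ?_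
  · have : 0 < 2 ^ m * δ := by positivity
    nlinarith
  · apply ENNReal.ofReal_le_ofReal
    apply le_of_eq
    ring

theorem lt_one_of (e m : ℕ) {δ : ℝ} (hδ : 0 < δ) (h1 : 3 * ((e : ℝ) + 1) * (2 ^ m * δ) ≤ 1) : δ < 1 := by
  have h2m : (1 : ℝ) ≤ 2 ^ m := one_le_pow₀ (by norm_num)
  have he : (0 : ℝ) ≤ e := Nat.cast_nonneg e
  have h2 : δ ≤ 2 ^ m * δ := le_mul_of_one_le_left hδ.le h2m
  have h3 : 0 < 2 ^ m * δ := by positivity
  nlinarith

theorem mem_kB (e m : ℕ) {δ t : ℝ} (hδ : 0 < δ) (h1 : 3 * ((e : ℝ) + 1) * (2 ^ m * δ) ≤ 1) (x : Vec (e + 1))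
    (hx : Fe δ (kv (e + 1) m (3 * (2 ^ m * δ))) (kb (e + 1) m (3 * (2 ^ m * δ))) (fun _ => 0) x t ≠ 0) :
    x ∈ kB e m δ t := by
  set R : ℝ := 3 * (2 ^ m * δ) with hR
  have hδ1 := lt_one_of e m hδ h1
  obtain ⟨i, -, hi⟩ : ∃ i ∈ Finset.univ, (tube δ (dir (kv (e + 1) m R i)) (WithLp.toLp 2
      (kb (e + 1) m R i + (0 : ℝ) • kv (e + 1) m R i, (0 : ℝ)))).indicator (fun _ => (1 : ℝ≥0∞)) (WithLp.toLp 2 (x, t)) ≠ 0 :=
    Finset.exists_ne_zero_of_sum_ne_zero hx
  have hi2 : (WithLp.toLp 2 (x, t) : Space (e + 1)) ∈ tube δ (dir (kv (e + 1) m R i)) (WithLp.toLp 2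
      (kb (e + 1) m R i + (0 : ℝ) • kv (e + 1) m R i, (0 : ℝ))) := by
    by_contra h
    exact hi (indicator_of_notMem h _)
  rw [tube_eq] at hi2
  obtain ⟨ht, hx2⟩ := Pool.Agent.H803R2.KakFTO.tube_subset hδ hδ1 (fun _ => kb (e + 1) m R i)
    (kv_norm e m hδ h1 i) 0 hi2
  intro j
  refine ⟨i j, (i j).2, ?_⟩
  have h3 := (PiLp.norm_apply_le (x - (kb (e + 1) m R i + t • kv (e + 1) m R i)) j).trans hx2
  rw [Real.norm_eq_abs] at h3
  have e3 : (x - (kb (e + 1) m R i + t • kv (e + 1) m R i)) j =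
      x j - 3 * R * (gg m (2 / ((m : ℝ) + 1)) (i j) + (t / 3 + 1 / 2) * cc m (i j)) := by
    show x j - (R * (3 * gg m (2 / ((m : ℝ) + 1)) (i j) + 3 / 2 * cc m (i j)) + t * (R * cc m (i j))) = _
    ring
  rw [e3] at h3
  exact h3

/-- **The mixed norms of the product family are large.** -/
theorem keich_mixed (e : ℕ) {q : ℝ} (hq : 1 < q) : ∃ c : ℝ, 0 < c ∧ ∀ (m : ℕ) (δ : ℝ), 0 < δ →
    3 * ((e : ℝ) + 1) * (2 ^ m * δ) ≤ 1 →
    ENNReal.ofReal (c * ((2 ^ m * δ) ^ (e + 1)) ^ (1 / ((q - 1) * ((e : ℝ) + 1))) * ((m : ℝ) + 1)) ≤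
      ∫⁻ t : ℝ, (∫⁻ x, Fe δ (kv (e + 1) m (3 * (2 ^ m * δ))) (kb (e + 1) m (3 * (2 ^ m * δ))) (fun _ => 0) x t ^ q) ^
        (1 / ((q - 1) * ((e : ℝ) + 1))) := by
  have he : (0 : ℝ) < (e : ℝ) + 1 := by positivity
  have hq0 : 0 < q := by linarith
  have hq1 : 0 < q - 1 := by linarith
  set s : ℝ := 1 / ((q - 1) * ((e : ℝ) + 1)) with hs
  have hs0 : 0 < s := by positivity
  -- the volume of the unit ball
  have hV0 : 0 < volume (closedBall (0 : Vec (e + 1)) 1) := measure_closedBall_pos _ _ one_pos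
  have hVt : volume (closedBall (0 : Vec (e + 1)) 1) ≠ ∞ := measure_closedBall_lt_top.ne
  set V : ℝ := (volume (closedBall (0 : Vec (e + 1)) 1)).toReal with hV
  have hVr : 0 < V := ENNReal.toReal_pos hV0.ne' hVt
  have hVe : volume (closedBall (0 : Vec (e + 1)) 1) = ENNReal.ofReal V := (ENNReal.ofReal_toReal hVt).symm
  refine ⟨1 / 4 * (((1 / 4) ^ (e + 1) * V) ^ (q * s) * (144 : ℝ)⁻¹), by positivity, ?_⟩
  intro m δ hδ h1
  have hδ1 := lt_one_of e m hδ h1
  set v := kv (e + 1) m (3 * (2 ^ m * δ)) with hv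
  set β := kb (e + 1) m (3 * (2 ^ m * δ)) with hβ
  have hw : 0 < 2 ^ m * δ := by positivity
  set w : ℝ := 2 ^ m * δ with hwdef
  have hm1 : (0 : ℝ) < (m : ℝ) + 1 := by positivity
  have hpt : ∀ t ∈ Icc (-(1 / 8) : ℝ) (1 / 8),
      ENNReal.ofReal (((1 / 4) ^ (e + 1) * V) ^ (q * s) * (144 : ℝ)⁻¹ * (w ^ (e + 1)) ^ s * ((m : ℝ) + 1)) ≤
      (∫⁻ x, Fe δ v β (fun _ => 0) x t ^ q) ^ s := by
    intro t ht
    have ht2 : t ∈ Icc (-(3 / 2) : ℝ) (3 / 2) := ⟨by linarith [ht.1], by linarith [ht.2]⟩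
    have h2 := slice_ge hδ hδ1 v β (kv_norm e m hδ h1) ht
    have h3 := slice_holder (Fe_meas1 δ v β (fun _ => 0) t) (kB e m δ t) (kB_meas e m δ t)
      (fun x hx => mem_kB e m hδ h1 x hx) (θ := 1 / q) (by positivity) (by rw [div_lt_one hq0]; exact hq)
    rw [one_div_one_div] at h3
    have h4 := kB_vol e m hδ ht2
    -- the left side
    have e1 : (Fintype.card (Fin (e + 1) → Fin (2 ^ m)) : ℝ≥0∞) * volume (closedBall (0 : Vec (e + 1)) (δ / 4)) =
        ENNReal.ofReal ((1 / 4) ^ (e + 1) * V * w ^ (e + 1)) := by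
      rw [Measure.addHaar_closedBall _ _ (by positivity : (0 : ℝ) ≤ δ / 4), finrank_euclideanSpace, Fintype.card_fin,
        ← Measure.addHaar_closedBall_eq_addHaar_ball (volume : Measure (Vec (e + 1))), hVe, Fintype.card_fun,
        Fintype.card_fin, Fintype.card_fin, ← ENNReal.ofReal_natCast, ← ENNReal.ofReal_mul (by positivity),
        ← ENNReal.ofReal_mul (by positivity)]
      congr 1
      push_cast
      rw [hwdef, div_eq_mul_one_div, mul_pow, mul_pow]
      ring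
    rw [e1] at h2
    have h5 : ENNReal.ofReal ((1 / 4) ^ (e + 1) * V * w ^ (e + 1)) ≤
        (∫⁻ x, Fe δ v β (fun _ => 0) x t ^ q) ^ (1 / q) *
          ENNReal.ofReal ((144 * w / ((m : ℝ) + 1)) ^ (e + 1)) ^ (1 - 1 / q) :=
      h2.trans (h3.trans (mul_le_mul' le_rfl (ENNReal.rpow_le_rpow h4 (by
        rw [sub_nonneg, div_le_one hq0]
        exact hq.le))))
    have h6 := ENNReal.rpow_le_rpow h5 (by positivity : 0 ≤ q * s)
    rw [ENNReal.mul_rpow_of_nonneg _ _ (by positivity), ← ENNReal.rpow_mul, ← ENNReal.rpow_mul] at h6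
    have e2 : 1 / q * (q * s) = s := by field_simp
    have e3 : (1 - 1 / q) * (q * s) = 1 / ((e : ℝ) + 1) := by
      rw [hs]
      field_simp
    rw [e2, e3, ENNReal.ofReal_rpow_of_pos (by positivity), ENNReal.ofReal_rpow_of_pos (by positivity)] at h6
    have e4 : ((144 * w / ((m : ℝ) + 1)) ^ (e + 1)) ^ (1 / ((e : ℝ) + 1)) = 144 * w / ((m : ℝ) + 1) := by
      rw [← Real.rpow_natCast, ← Real.rpow_mul (by positivity)]
      have : ((e + 1 : ℕ) : ℝ) * (1 / ((e : ℝ) + 1)) = 1 := by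
        push_cast
        field_simp
      rw [this, Real.rpow_one]
    rw [e4] at h6
    have hy : 0 < 144 * w / ((m : ℝ) + 1) := by positivity
    rw [← ENNReal.div_le_iff (ENNReal.ofReal_pos.2 hy).ne' ENNReal.ofReal_ne_top,
      ← ENNReal.ofReal_div_of_pos hy] at h6
    refine le_trans (le_of_eq ?_) h6
    congr 1
    rw [Real.mul_rpow (x := (1 / 4) ^ (e + 1) * V) (y := w ^ (e + 1)) (by positivity) (by positivity)]
    have e5 : (w ^ (e + 1)) ^ (q * s) = (w ^ (e + 1)) ^ s * w := by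
      have e6 : q * s = s + 1 / ((e : ℝ) + 1) := by
        rw [hs]
        field_simp
        ring
      rw [e6, Real.rpow_add (by positivity)]
      congr 1
      rw [← Real.rpow_natCast, ← Real.rpow_mul (by positivity)]
      have : ((e + 1 : ℕ) : ℝ) * (1 / ((e : ℝ) + 1)) = 1 := by
        push_cast
        field_simp
      rw [this, Real.rpow_one]
    rw [e5]
    field_simp
  calc ENNReal.ofReal (1 / 4 * (((1 / 4) ^ (e + 1) * V) ^ (q * s) * (144 : ℝ)⁻¹) * (w ^ (e + 1)) ^ s * ((m : ℝ) + 1))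
      = ∫⁻ _t in Icc (-(1 / 8) : ℝ) (1 / 8),
          ENNReal.ofReal (((1 / 4) ^ (e + 1) * V) ^ (q * s) * (144 : ℝ)⁻¹ * (w ^ (e + 1)) ^ s * ((m : ℝ) + 1)) := by
        rw [setLIntegral_const, Real.volume_Icc, ← ENNReal.ofReal_mul (by positivity)]
        congr 1
        ring
    _ ≤ ∫⁻ t in Icc (-(1 / 8) : ℝ) (1 / 8), (∫⁻ x, Fe δ v β (fun _ => 0) x t ^ q) ^ s :=
        setLIntegral_mono' measurableSet_Icc hpt
    _ ≤ _ := setLIntegral_le_lintegral _ _

end Pool.Agent.N220.Kak
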