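import Pool.Agent.R134.Kak.Induct

set_option autoImplicit false

/-! The pointwise estimate for reducible families at scale one: the integral of the power `q ≤ 2` of
the multiplicity over a horizontal slice is bounded by a sum over the tubes of powers of functions of
the height whose integrals are at most logarithmic. -/

open MeasureTheory Set ENNReal NNReal
open Pool.Agent.R134.Kak

namespace Pool.Agent.N220.Kak

/-- The logarithmic factor. -/
noncomputable def ell (N : ℕ) : ℝ≥0∞ := ENNReal.ofReal (1 + Real.log N)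

theorem ell_real_pos (N : ℕ) : 0 < 1 + Real.log N := by
  have := Real.log_natCast_nonneg N
  linarith

theorem ell_ne_top (N : ℕ) : ell N ≠ ∞ := ENNReal.ofReal_ne_top

theorem sum_nat_log (S : Finset ℕ) (M : ℕ) (hS : S.card ≤ M) :
    ∑ k ∈ S, ((k : ℝ) + 1)⁻¹ ≤ 2 * (1 + Real.log M) := by
  classical
  have hlog : 0 ≤ Real.log M := Real.log_natCast_nonneg M
  rcases Nat.eq_zero_or_pos M with rfl | hM
  · have : S = ∅ := Finset.card_eq_zero.1 (Nat.le_zero.1 hS)
    rw [this, Finset.sum_empty]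
    linarith
  have hM0 : (0 : ℝ) < M := by exact_mod_cast hM
  rw [← Finset.sum_filter_add_sum_filter_not S (fun k => k < M)]
  have h2 : ∑ k ∈ S.filter (fun k => k < M), ((k : ℝ) + 1)⁻¹ ≤ 1 + Real.log M := by
    have hh := harmonic_le_one_add_log M
    have e : ((harmonic M : ℚ) : ℝ) = ∑ k ∈ Finset.range M, ((k : ℝ) + 1)⁻¹ := by
      unfold harmonic
      push_cast
      rfl
    rw [e] at hh
    refine le_trans ?_ hh
    apply Finset.sum_le_sum_of_subset_of_nonneg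
    · intro k hk
      rw [Finset.mem_range]
      exact (Finset.mem_filter.1 hk).2
    · intro k _ _
      positivity
  have h3 : ∑ k ∈ S.filter (fun k => ¬ k < M), ((k : ℝ) + 1)⁻¹ ≤ 1 := by
    calc ∑ k ∈ S.filter (fun k => ¬ k < M), ((k : ℝ) + 1)⁻¹
        ≤ ∑ _k ∈ S.filter (fun k => ¬ k < M), (M : ℝ)⁻¹ := by
          refine Finset.sum_le_sum fun k hk => ?_
          have hk2 : M ≤ k := not_lt.1 (Finset.mem_filter.1 hk).2
          have hk3 : (M : ℝ) ≤ k := by exact_mod_cast hk2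
          exact inv_anti₀ hM0 (by linarith)
      _ = ((S.filter (fun k => ¬ k < M)).card : ℝ) * (M : ℝ)⁻¹ := by
          rw [Finset.sum_const, nsmul_eq_mul]
      _ ≤ (M : ℝ) * (M : ℝ)⁻¹ := by
          apply mul_le_mul_of_nonneg_right _ (by positivity)
          exact_mod_cast (Finset.card_filter_le _ _).trans hS
      _ = 1 := mul_inv_cancel₀ hM0.ne'
  linarith

theorem sum_int_log (S : Finset ℤ) (N : ℕ) (hS : S.card ≤ N) (c : ℤ) :
    ∑ h ∈ S, (1 + |(c : ℝ) - h|)⁻¹ ≤ 4 * (1 + Real.log N) := by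
  classical
  rw [← Finset.sum_filter_add_sum_filter_not S (fun h => h ≤ c)]
  have key : ∀ S' : Finset ℤ, S' ⊆ S → Set.InjOn (fun h : ℤ => (c - h).natAbs) S' →
      ∑ h ∈ S', (1 + |(c : ℝ) - h|)⁻¹ ≤ 2 * (1 + Real.log N) := by
    intro S' hS' hinj
    have e : ∑ h ∈ S', (1 + |(c : ℝ) - h|)⁻¹ =
        ∑ k ∈ S'.image (fun h : ℤ => (c - h).natAbs), ((k : ℝ) + 1)⁻¹ := by
      rw [Finset.sum_image hinj]
      refine Finset.sum_congr rfl fun h _ => ?_
      congr 1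
      rw [Nat.cast_natAbs]
      push_cast
      ring
    rw [e]
    apply sum_nat_log
    exact Finset.card_image_le.trans ((Finset.card_le_card hS').trans hS)
  have h2 := key (S.filter (fun h => h ≤ c)) (Finset.filter_subset _ _) (by
    intro x hx y hy hxy
    have hx' := (Finset.mem_filter.1 (Finset.mem_coe.1 hx)).2
    have hy' := (Finset.mem_filter.1 (Finset.mem_coe.1 hy)).2
    have : (c - x).natAbs = (c - y).natAbs := hxy
    omega)
  have h3 := key (S.filter (fun h => ¬ h ≤ c)) (Finset.filter_subset _ _) (by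
    intro x hx y hy hxy
    have hx' := (Finset.mem_filter.1 (Finset.mem_coe.1 hx)).2
    have hy' := (Finset.mem_filter.1 (Finset.mem_coe.1 hy)).2
    have : (c - x).natAbs = (c - y).natAbs := hxy
    omega)
  linarith

/-- The sums for a family of bounded multiplicity. -/
theorem sum_mult_log {ι : Type} (κ : ℕ) (u : ι → ℝ) (S : Finset ι) (N : ℕ) (hN : S.card ≤ N)
    (hM : ∀ c : ℤ, (S.filter (fun i => ⌊u i⌋ = c)).card ≤ κ) (i : ι) :
    ∑ i' ∈ S, (1 + |u i - u i'|)⁻¹ ≤ 8 * κ * (1 + Real.log N) := by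
  classical
  have hpt : ∀ i', (1 + |u i - u i'|)⁻¹ ≤ 2 * (1 + |((⌊u i⌋ : ℤ) : ℝ) - (⌊u i'⌋ : ℤ)|)⁻¹ := by
    intro i'
    have h2 : 0 < 1 + |u i - u i'| := by positivity
    have h3 : 0 < 1 + |((⌊u i⌋ : ℤ) : ℝ) - (⌊u i'⌋ : ℤ)| := by positivity
    have h4 : 1 + |((⌊u i⌋ : ℤ) : ℝ) - (⌊u i'⌋ : ℤ)| ≤ 2 * (1 + |u i - u i'|) := by
      have g1 := Int.floor_le (u i)
      have g2 := Int.lt_floor_add_one (u i)
      have g3 := Int.floor_le (u i')
      have g4 := Int.lt_floor_add_one (u i')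
      have g5 : |((⌊u i⌋ : ℤ) : ℝ) - (⌊u i'⌋ : ℤ)| ≤ |u i - u i'| + 1 := by
        rw [abs_le]
        have g6 := le_abs_self (u i - u i')
        have g7 := neg_abs_le (u i - u i')
        constructor <;> linarith
      have g6 := abs_nonneg (u i - u i')
      linarith
    rw [inv_eq_one_div, inv_eq_one_div, mul_one_div, div_le_div_iff₀ h2 h3, one_mul]
    exact h4
  have h2 := sum_int_log (S.image (fun i => ⌊u i⌋)) N (Finset.card_image_le.trans hN) ⌊u i⌋
  have hκ : (0 : ℝ) ≤ κ := Nat.cast_nonneg κ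
  calc ∑ i' ∈ S, (1 + |u i - u i'|)⁻¹
      ≤ ∑ i' ∈ S, 2 * (1 + |((⌊u i⌋ : ℤ) : ℝ) - (⌊u i'⌋ : ℤ)|)⁻¹ :=
        Finset.sum_le_sum fun i' _ => hpt i'
    _ = 2 * ∑ c ∈ S.image (fun i => ⌊u i⌋), ∑ i' ∈ S.filter (fun i => ⌊u i⌋ = c),
          (1 + |((⌊u i⌋ : ℤ) : ℝ) - (⌊u i'⌋ : ℤ)|)⁻¹ := by
        rw [← Finset.mul_sum]
        congr 1
        exact (Finset.sum_fiberwise_of_maps_to (fun i hi => Finset.mem_image_of_mem _ hi) _).symm
    _ ≤ 2 * ∑ c ∈ S.image (fun i => ⌊u i⌋), (κ : ℝ) * (1 + |((⌊u i⌋ : ℤ) : ℝ) - c|)⁻¹ := by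
        apply mul_le_mul_of_nonneg_left _ (by positivity)
        refine Finset.sum_le_sum fun c _ => ?_
        rw [Finset.sum_congr rfl (fun i' hi' => by rw [(Finset.mem_filter.1 hi').2] :
          ∀ i' ∈ S.filter (fun i => ⌊u i⌋ = c), (1 + |((⌊u i⌋ : ℤ) : ℝ) - (⌊u i'⌋ : ℤ)|)⁻¹ =
            (1 + |((⌊u i⌋ : ℤ) : ℝ) - c|)⁻¹), Finset.sum_const, nsmul_eq_mul]
        apply mul_le_mul_of_nonneg_right _ (by positivity)
        exact_mod_cast hM c
    _ ≤ 2 * ((κ : ℝ) * (4 * (1 + Real.log N))) := by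
        rw [← Finset.mul_sum]
        gcongr
    _ = _ := by ring

/-- Hölder's inequality with a weight. -/
theorem hold {w M : ℝ → ℝ≥0∞} (hw : Measurable w) (hM : Measurable M) {θ : ℝ} (h0 : 0 ≤ θ) (h1 : θ ≤ 1) {B : ℝ≥0∞}
    (hB : ∫⁻ x, w x ≤ B) :
    ∫⁻ x, M x ^ θ * w x ≤ (1 + B) * (∫⁻ x, M x * w x) ^ θ := by
  have h2 := ENNReal.lintegral_mul_norm_pow_le (μ := (volume : Measure ℝ)) (f := fun x => M x * w x) (g := w)
    (hM.mul hw).aemeasurable hw.aemeasurable h0 (by linarith : (0 : ℝ) ≤ 1 - θ) (by ring)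
  have e : ∀ x, (M x * w x) ^ θ * w x ^ (1 - θ) = M x ^ θ * w x := by
    intro x
    rw [ENNReal.mul_rpow_of_nonneg _ _ h0, mul_assoc, ← ENNReal.rpow_add_of_nonneg _ _ h0 (by linarith)]
    simp
  simp only [e] at h2
  refine h2.trans ?_
  rw [mul_comm]
  apply mul_le_mul' _ le_rfl
  calc (∫⁻ x, w x) ^ (1 - θ) ≤ (1 + B) ^ (1 - θ) :=
        ENNReal.rpow_le_rpow (hB.trans le_add_self) (by linarith)
    _ ≤ (1 + B) ^ (1 : ℝ) := ENNReal.rpow_le_rpow_of_exponent_le le_self_add (by linarith)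
    _ = 1 + B := ENNReal.rpow_one _

end Pool.Agent.N220.Kak
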