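import Pool.Agent.N220.Kak.Ptw

set_option autoImplicit false

/-! The pointwise estimate for reducible families at scale one: the induction. -/

open MeasureTheory Set ENNReal NNReal
open Pool.Agent.R134.Kak

namespace Pool.Agent.N220.Kak

/-- The statement of the pointwise estimate in dimension `d + 1`. -/
def Ptw (K A L : ℝ) (κ d : ℕ) (C : ℝ≥0) : Prop :=
  ∀ (ι : Type) (J : Finset ι) (v β : ι → Vec (d + 1)) (N : ℕ), J.card ≤ N → Red K (d + 1) J v β →
    Mult κ (d + 1) J v → ∃ h : ι → ℝ → ℝ≥0∞, (∀ i, Measurable (h i)) ∧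
      (∀ i ∈ J, ∫⁻ t in Icc (-L) L, h i t ≤ C * ell N) ∧
      ∀ t ∈ Icc (-L) L, ∀ q : ℝ, 1 ≤ q → q ≤ 2 → ∀ a : ι → ℝ≥0∞,
        ∫⁻ x, (∑ i ∈ J, a i * tub A v β i (t, x)) ^ q ≤
          C * ∑ i ∈ J, a i ^ q * h i t ^ ((q - 1) * ((d : ℝ) + 1))

theorem ptw_base {K A L : ℝ} (hA : 0 < A) (hL : 0 ≤ L) (κ : ℕ) :
    ∃ C : ℝ≥0, Ptw K A L κ 0 C := by
  classical
  set D : ℝ := 2 * A * (4 * L + 8 * A) with hD
  have hD0 : 0 ≤ D := by positivity
  set C1 : ℝ≥0 := (D * (8 * κ)).toNNReal with hC1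
  set C2 : ℝ≥0 := (2 * A).toNNReal with hC2
  refine ⟨C1 + (1 + C2), ?_⟩
  intro ι J v β N hN _ hM
  set u : ι → ℝ := fun i => v i 0 with hu
  set g : ι → ℝ := fun i => β i 0 with hg
  have hcount : ∀ c : ℤ, (J.filter (fun i => ⌊u i⌋ = c)).card ≤ κ := by
    intro c
    apply hM _ (Finset.filter_subset _ _)
    intro i hi i' hi'
    have e1 : ⌊v i 0⌋ = c := (Finset.mem_filter.1 hi).2
    have e2 : ⌊v i' 0⌋ = c := (Finset.mem_filter.1 hi').2
    have h5 : |v i 0 - v i' 0| < 1 := Int.abs_sub_lt_one_of_floor_eq_floor (e1.trans e2.symm)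
    have h6 : tl (v i - v i') = 0 := Subsingleton.elim _ _
    have h7 : (v i - v i') 0 = v i 0 - v i' 0 := rfl
    rw [norm_sq_split, h6, norm_zero, h7]
    have h8 : (v i 0 - v i' 0) ^ 2 ≤ 1 := by
      rw [← sq_abs]
      have := abs_nonneg (v i 0 - v i' 0)
      nlinarith
    push_cast
    linarith
  have hm : ∀ c, Measurable (fun p : ℝ × ℝ => stq A u g c p) := fun c => stq_meas A u g c
  have hm1 : ∀ c t, Measurable (fun a : ℝ => stq A u g c (t, a)) := fun c t =>
    (hm c).comp (measurable_const.prodMk measurable_id)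
  have hms : ∀ t, Measurable (fun a : ℝ => ∑ c ∈ J, stq A u g c (t, a)) := fun t =>
    Finset.measurable_fun_sum _ fun c _ => hm1 c t
  have hint : ∀ c t, ∫⁻ a, stq A u g c (t, a) ≤ (C2 : ℝ≥0∞) := by
    intro c t
    have e : (fun x : ℝ => stq A u g c (t, x)) = {x : ℝ | |x + (t * (-(u c)) - g c)| ≤ A}.indicator (fun _ => 1) := by
      funext x
      unfold stq
      rw [indicator_apply, indicator_apply]
      simp only [mem_ofPred_eq, add_sub_assoc]
    rw [e, lintegral_indicator_const ((isClosed_le (by fun_prop) continuous_const).measurableSet), one_mul,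
      Pool.Agent.W772.vol_strip]
    exact le_rfl
  refine ⟨fun i t => ∫⁻ a, (∑ c ∈ J, stq A u g c (t, a)) * stq A u g i (t, a), ?_, ?_, ?_⟩
  · intro i
    have : Measurable (fun p : ℝ × ℝ => (∑ c ∈ J, stq A u g c p) * stq A u g i p) :=
      (Finset.measurable_fun_sum _ fun c _ => hm c).mul (hm i)
    exact this.lintegral_prod_right'
  · intro i _
    have e1 : ∀ t, ∫⁻ a, (∑ c ∈ J, stq A u g c (t, a)) * stq A u g i (t, a) =
        ∑ c ∈ J, ∫⁻ a, stq A u g i (t, a) * stq A u g c (t, a) := by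
      intro t
      refine Eq.trans ?_ (lintegral_finsetSum J (f := fun c a => stq A u g i (t, a) * stq A u g c (t, a))
        (fun c _ => (hm1 i t).mul (hm1 c t)))
      refine lintegral_congr fun a => ?_
      rw [mul_comm, Finset.mul_sum]
    simp only [e1]
    rw [lintegral_finsetSum _ (fun c _ => by
      have : Measurable (fun p : ℝ × ℝ => stq A u g i p * stq A u g c p) := (hm i).mul (hm c)
      exact this.lintegral_prod_right')]
    calc ∑ c ∈ J, ∫⁻ t in Icc (-L) L, ∫⁻ a, stq A u g i (t, a) * stq A u g c (t, a)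
        ≤ ∑ c ∈ J, ENNReal.ofReal (D * (1 + |u i - u c|)⁻¹) :=
          Finset.sum_le_sum fun c _ => pair_int' hA hL u g i c
      _ = ENNReal.ofReal (D * ∑ c ∈ J, (1 + |u i - u c|)⁻¹) := by
          rw [← ENNReal.ofReal_sum_of_nonneg (fun c _ => by positivity), Finset.mul_sum]
      _ ≤ ENNReal.ofReal (D * (8 * κ * (1 + Real.log N))) := by
          apply ENNReal.ofReal_le_ofReal
          exact mul_le_mul_of_nonneg_left (sum_mult_log κ u J N hN hcount i) hD0
      _ = (C1 : ℝ≥0∞) * ell N := by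
          show _ = ENNReal.ofReal _ * ENNReal.ofReal _
          rw [← ENNReal.ofReal_mul (by positivity)]
          congr 1
          ring
      _ ≤ _ := by
          apply mul_le_mul' _ le_rfl
          push_cast
          exact le_self_add
  · intro t ht q hq1 hq2 al
    have hq0 : 0 ≤ q := by linarith
    have hmeas : Measurable (fun a : ℝ => (∑ i ∈ J, al i * stq A u g i (t, a)) ^ q) :=
      (Finset.measurable_fun_sum _ fun i _ => (hm1 i t).const_mul _).pow_const q
    calc ∫⁻ x, (∑ i ∈ J, al i * tub A v β i (t, x)) ^ q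
        ≤ ∫⁻ x : Vec 1, (∑ i ∈ J, al i * stq A u g i (t, x 0)) ^ q := by
          refine lintegral_mono fun x => ENNReal.rpow_le_rpow (Finset.sum_le_sum fun i _ => mul_le_mul' le_rfl ?_) hq0
          unfold tub stq
          by_cases hx : ‖x - (β i + t • v i)‖ ≤ A
          · have h0 := (abs_zero_le _).trans hx
            rw [indicator_of_mem (show (t, x 0) ∈ {p : ℝ × ℝ | |p.2 + p.1 * (-(u i)) - g i| ≤ A} from ?_)]
            · exact indicator_le_self' (fun _ _ => zero_le) _
            · show |x 0 + t * (-(u i)) - g i| ≤ A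
              have e0 : x 0 + t * (-(u i)) - g i = (x - (β i + t • v i)) 0 := by
                show x 0 + t * (-(v i 0)) - β i 0 = x 0 - (β i 0 + t * v i 0)
                ring
              rw [e0]
              exact h0
          · rw [indicator_of_notMem (show (t, x) ∉ {p : ℝ × Vec 1 | ‖p.2 - (β i + p.1 • v i)‖ ≤ A} from hx)]
            exact zero_le
      _ = ∫⁻ a : ℝ, ∫⁻ _y : Vec 0, (∑ i ∈ J, al i * stq A u g i (t, a)) ^ q :=
          lint_split (fun a _ => (∑ i ∈ J, al i * stq A u g i (t, a)) ^ q) (hmeas.comp measurable_fst)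
      _ = ∫⁻ a : ℝ, (∑ i ∈ J, al i * stq A u g i (t, a)) ^ q := by
          refine lintegral_congr fun a => ?_
          rw [volume_euclideanSpace_eq_dirac, lintegral_const, Measure.dirac_apply_of_mem (mem_univ _), mul_one]
      _ ≤ ∫⁻ a : ℝ, ∑ i ∈ J, al i ^ q * ((∑ c ∈ J, stq A u g c (t, a)) ^ (q - 1) * stq A u g i (t, a)) := by
          refine lintegral_mono fun a => ?_
          have h := pw J (fun i => stq A u g i (t, a)) al hq1
          have e : ∑ i ∈ J, al i * stq A u g i (t, a) = ∑ i ∈ J, stq A u g i (t, a) * al i :=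
            Finset.sum_congr rfl fun i _ => mul_comm _ _
          rw [e]
          refine h.trans (le_of_eq ?_)
          rw [Finset.mul_sum]
          refine Finset.sum_congr rfl fun i _ => ?_
          ring
      _ = ∑ i ∈ J, al i ^ q * ∫⁻ a : ℝ, (∑ c ∈ J, stq A u g c (t, a)) ^ (q - 1) * stq A u g i (t, a) := by
          have hmm : ∀ i, Measurable (fun a : ℝ => (∑ c ∈ J, stq A u g c (t, a)) ^ (q - 1) * stq A u g i (t, a)) :=
            fun i => ((hms t).pow_const _).mul (hm1 i t)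
          rw [lintegral_finsetSum _ (fun i _ => (hmm i).const_mul _)]
          refine Finset.sum_congr rfl fun i _ => ?_
          rw [lintegral_const_mul _ (hmm i)]
      _ ≤ ∑ i ∈ J, al i ^ q *
            ((1 + (C2 : ℝ≥0∞)) * (∫⁻ a : ℝ, (∑ c ∈ J, stq A u g c (t, a)) * stq A u g i (t, a)) ^ (q - 1)) :=
          Finset.sum_le_sum fun i _ => mul_le_mul' le_rfl
            (hold (hm1 i t) (hms t) (by linarith) (by linarith) (hint i t))
      _ = (1 + (C2 : ℝ≥0∞)) * ∑ i ∈ J, al i ^ q *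
            (∫⁻ a : ℝ, (∑ c ∈ J, stq A u g c (t, a)) * stq A u g i (t, a)) ^ ((q - 1) * (((0 : ℕ) : ℝ) + 1)) := by
          rw [Finset.mul_sum]
          refine Finset.sum_congr rfl fun i _ => ?_
          have e0 : (q - 1) * (((0 : ℕ) : ℝ) + 1) = q - 1 := by push_cast; ring
          rw [e0]
          ring
      _ ≤ _ := by
          apply mul_le_mul' _ le_rfl
          push_cast
          exact le_add_self

theorem ptw_step {K A L : ℝ} (hK : 0 ≤ K) (hA : 0 < A) (hL : 0 ≤ L) (κ d : ℕ) {C : ℝ≥0}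
    (ih : Ptw K A L κ d C) : ∃ C' : ℝ≥0, Ptw K A L κ (d + 1) C' := by
  classical
  have hA1 : 0 < A + K + L := by positivity
  set D : ℝ := 2 * (A + K + L) * (2 * L + 8 * (A + K + L)) with hD
  have hD0 : 0 ≤ D := by positivity
  set C1 : ℝ≥0 := (D * 4).toNNReal with hC1
  set C2 : ℝ≥0 := (2 * (A + K + L)).toNNReal with hC2
  refine ⟨(C1 + C) + (1 + C2) * C, ?_⟩
  intro ι J v β N hN hR hM
  obtain ⟨U, hU, hR'⟩ := hR
  set cl : ι → ℤ := fun i => ⌊U (v i) 0⌋ with hcl
  set g : ℤ → ℝ := pick J cl (fun i => U (β i) 0) with hg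
  set v' : ι → Vec (d + 1) := fun i => tl (U (v i)) with hv'
  set β' : ι → Vec (d + 1) := fun i => tl (U (β i)) with hβ'
  have hIH := fun c : ℤ => ih ι (J.filter (fun i => cl i = c)) v' β' N
    ((Finset.card_filter_le _ _).trans hN) (hR' c) (hM.class_tl U c)
  choose hc hcm hci hcp using hIH
  set S : Finset ℤ := J.image cl with hS
  have hScard : S.card ≤ N := Finset.card_image_le.trans hN
  have hm : ∀ c, Measurable (fun p : ℝ × ℝ => stp (A + K + L) g c p) := fun c => stp_meas _ g c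
  have hm1 : ∀ c t, Measurable (fun a : ℝ => stp (A + K + L) g c (t, a)) := fun c t =>
    (hm c).comp (measurable_const.prodMk measurable_id)
  have hms : ∀ t, Measurable (fun a : ℝ => ∑ c ∈ S, stp (A + K + L) g c (t, a)) := fun t =>
    Finset.measurable_fun_sum _ fun c _ => hm1 c t
  have hint : ∀ c t, ∫⁻ a, stp (A + K + L) g c (t, a) ≤ (C2 : ℝ≥0∞) := by
    intro c t
    rw [stp_int]
    exact le_rfl
  -- the overlaps of the strips
  set al : ℤ → ℝ → ℝ≥0∞ := fun c t => ∫⁻ a, (∑ c' ∈ S, stp (A + K + L) g c' (t, a)) * stp (A + K + L) g c (t, a)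
    with hal
  have halm : ∀ c, Measurable (al c) := by
    intro c
    have : Measurable (fun p : ℝ × ℝ => (∑ c' ∈ S, stp (A + K + L) g c' p) * stp (A + K + L) g c p) :=
      (Finset.measurable_fun_sum _ fun c _ => hm c).mul (hm c)
    exact this.lintegral_prod_right'
  have hali : ∀ c, ∫⁻ t in Icc (-L) L, al c t ≤ (C1 : ℝ≥0∞) * ell N := by
    intro c
    have e1 : ∀ t, al c t =
        ∑ c' ∈ S, ∫⁻ a, stp (A + K + L) g c (t, a) * stp (A + K + L) g c' (t, a) := by
      intro t
      refine Eq.trans ?_ (lintegral_finsetSum S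
        (f := fun c' a => stp (A + K + L) g c (t, a) * stp (A + K + L) g c' (t, a))
        (fun c' _ => (hm1 c t).mul (hm1 c' t)))
      refine lintegral_congr fun a => ?_
      rw [mul_comm, Finset.mul_sum]
    simp only [e1]
    rw [lintegral_finsetSum _ (fun c' _ => by
      have : Measurable (fun p : ℝ × ℝ => stp (A + K + L) g c p * stp (A + K + L) g c' p) := (hm c).mul (hm c')
      exact this.lintegral_prod_right')]
    calc ∑ c' ∈ S, ∫⁻ t in Icc (-L) L, ∫⁻ a, stp (A + K + L) g c (t, a) * stp (A + K + L) g c' (t, a)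
        ≤ ∑ c' ∈ S, ENNReal.ofReal (D * (1 + |(c : ℝ) - c'|)⁻¹) :=
          Finset.sum_le_sum fun c' _ => pair_int hA1 hL g c c'
      _ = ENNReal.ofReal (D * ∑ c' ∈ S, (1 + |(c : ℝ) - c'|)⁻¹) := by
          rw [← ENNReal.ofReal_sum_of_nonneg (fun c' _ => by positivity), Finset.mul_sum]
      _ ≤ ENNReal.ofReal (D * (4 * (1 + Real.log N))) := by
          apply ENNReal.ofReal_le_ofReal
          exact mul_le_mul_of_nonneg_left (sum_int_log S N hScard c) hD0
      _ = (C1 : ℝ≥0∞) * ell N := by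
          show _ = ENNReal.ofReal _ * ENNReal.ofReal _
          rw [← ENNReal.ofReal_mul (by positivity)]
          congr 1
          ring
  have hd0 : (0 : ℝ) ≤ d := Nat.cast_nonneg d
  have hd2 : (0 : ℝ) < d + 2 := by linarith
  have hcast : ((d + 1 : ℕ) : ℝ) + 1 = (d : ℝ) + 2 := by push_cast; ring
  refine ⟨fun i t => al (cl i) t ^ (1 / ((d : ℝ) + 2)) * hc (cl i) i t ^ (((d : ℝ) + 1) / ((d : ℝ) + 2)), ?_, ?_, ?_⟩
  · intro i
    exact ((halm _).pow_const _).mul ((hcm _ i).pow_const _)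
  · intro i hi
    have h1 := ENNReal.lintegral_mul_norm_pow_le (μ := volume.restrict (Icc (-L) L)) (f := al (cl i))
      (g := hc (cl i) i) (halm _).aemeasurable (hcm _ i).aemeasurable (p := 1 / ((d : ℝ) + 2))
      (q := ((d : ℝ) + 1) / ((d : ℝ) + 2)) (by positivity) (by positivity) (by field_simp; ring)
    refine h1.trans ?_
    have h2 : ∫⁻ t in Icc (-L) L, al (cl i) t ≤ ((C1 : ℝ≥0∞) + C) * ell N :=
      (hali _).trans (mul_le_mul' le_self_add le_rfl)
    have h3 : ∫⁻ t in Icc (-L) L, hc (cl i) i t ≤ ((C1 : ℝ≥0∞) + C) * ell N :=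
      (hci (cl i) i (Finset.mem_filter.2 ⟨hi, rfl⟩)).trans (mul_le_mul' le_add_self le_rfl)
    calc (∫⁻ t in Icc (-L) L, al (cl i) t) ^ (1 / ((d : ℝ) + 2)) *
          (∫⁻ t in Icc (-L) L, hc (cl i) i t) ^ (((d : ℝ) + 1) / ((d : ℝ) + 2))
        ≤ (((C1 : ℝ≥0∞) + C) * ell N) ^ (1 / ((d : ℝ) + 2)) *
            (((C1 : ℝ≥0∞) + C) * ell N) ^ (((d : ℝ) + 1) / ((d : ℝ) + 2)) :=
          mul_le_mul' (ENNReal.rpow_le_rpow h2 (by positivity)) (ENNReal.rpow_le_rpow h3 (by positivity))
      _ = ((C1 : ℝ≥0∞) + C) * ell N := by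
          rw [← ENNReal.rpow_add_of_nonneg _ _ (by positivity) (by positivity)]
          have : 1 / ((d : ℝ) + 2) + ((d : ℝ) + 1) / ((d : ℝ) + 2) = 1 := by field_simp; ring
          rw [this, ENNReal.rpow_one]
      _ ≤ _ := by
          apply mul_le_mul' _ le_rfl
          push_cast
          exact le_self_add
  · intro t ht q hq1 hq2 ω
    have hq0 : 0 ≤ q := by linarith
    have ht' : |t| ≤ L := abs_le.2 ht
    set Nc : ℤ → Vec (d + 1) → ℝ≥0∞ := fun c y => ∑ i ∈ J.filter (fun i => cl i = c), ω i * tub A v' β' i (t, y)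
      with hNc
    have hNcm : ∀ c, Measurable (Nc c) := fun c =>
      Finset.measurable_fun_sum _ fun i _ =>
        ((tub_meas A v' β' i).comp (measurable_const.prodMk measurable_id)).const_mul _
    have hpt : ∀ (a : ℝ) (y : Vec (d + 1)),
        (∑ i ∈ J, ω i * (stp (A + K + L) g (cl i) (t, a) * tub A v' β' i (t, y))) ^ q ≤
        ∑ c ∈ S, ((∑ c' ∈ S, stp (A + K + L) g c' (t, a)) ^ (q - 1) * stp (A + K + L) g c (t, a)) * Nc c y ^ q := by
      intro a y
      have e1 : ∑ i ∈ J, ω i * (stp (A + K + L) g (cl i) (t, a) * tub A v' β' i (t, y)) =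
          ∑ c ∈ S, stp (A + K + L) g c (t, a) * Nc c y := by
        rw [← Finset.sum_fiberwise_of_maps_to (fun i hi => Finset.mem_image_of_mem cl hi)]
        refine Finset.sum_congr rfl fun c _ => ?_
        rw [hNc, Finset.mul_sum]
        refine Finset.sum_congr rfl fun i hi => ?_
        rw [(Finset.mem_filter.1 hi).2]
        ring
      rw [e1]
      refine (pw S _ _ hq1).trans (le_of_eq ?_)
      rw [Finset.mul_sum]
      refine Finset.sum_congr rfl fun c _ => ?_
      ring
    have hmeas : Measurable (fun p : ℝ × Vec (d + 1) =>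
        (∑ i ∈ J, ω i * (stp (A + K + L) g (cl i) (t, p.1) * tub A v' β' i (t, p.2))) ^ q) := by
      refine (Finset.measurable_fun_sum _ fun i _ => ?_).pow_const q
      exact (((stp_meas _ g (cl i)).comp (measurable_const.prodMk measurable_fst)).mul
        ((tub_meas A v' β' i).comp (measurable_const.prodMk measurable_snd))).const_mul _
    calc ∫⁻ x, (∑ i ∈ J, ω i * tub A v β i (t, x)) ^ q
        ≤ ∫⁻ x : Vec (d + 2),
            (∑ i ∈ J, ω i * (stp (A + K + L) g (cl i) (t, U x 0) * tub A v' β' i (t, tl (U x)))) ^ q := by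
          refine lintegral_mono fun x => ENNReal.rpow_le_rpow ?_ hq0
          exact Finset.sum_le_sum fun i hi => mul_le_mul' le_rfl (tub_le U hU hi ht' x)
      _ = ∫⁻ a : ℝ, ∫⁻ y, (∑ i ∈ J, ω i * (stp (A + K + L) g (cl i) (t, a) * tub A v' β' i (t, y))) ^ q :=
          lint_rot_split U
            (fun a y => (∑ i ∈ J, ω i * (stp (A + K + L) g (cl i) (t, a) * tub A v' β' i (t, y))) ^ q) hmeas
      _ ≤ ∫⁻ a : ℝ, ∫⁻ y, ∑ c ∈ S, ((∑ c' ∈ S, stp (A + K + L) g c' (t, a)) ^ (q - 1) *
            stp (A + K + L) g c (t, a)) * Nc c y ^ q :=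
          lintegral_mono fun a => lintegral_mono fun y => hpt a y
      _ = ∑ c ∈ S, (∫⁻ a : ℝ, (∑ c' ∈ S, stp (A + K + L) g c' (t, a)) ^ (q - 1) *
            stp (A + K + L) g c (t, a)) * ∫⁻ y, Nc c y ^ q := by
          have e2 : ∀ a : ℝ, ∫⁻ y, ∑ c ∈ S, ((∑ c' ∈ S, stp (A + K + L) g c' (t, a)) ^ (q - 1) *
              stp (A + K + L) g c (t, a)) * Nc c y ^ q =
              ∑ c ∈ S, ((∑ c' ∈ S, stp (A + K + L) g c' (t, a)) ^ (q - 1) *
              stp (A + K + L) g c (t, a)) * ∫⁻ y, Nc c y ^ q := by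
            intro a
            rw [lintegral_finsetSum _ (fun c _ => ((hNcm c).pow_const q).const_mul _)]
            refine Finset.sum_congr rfl fun c _ => ?_
            rw [lintegral_const_mul _ ((hNcm c).pow_const q)]
          simp only [e2]
          have hmm : ∀ c, Measurable (fun a => (∑ c' ∈ S, stp (A + K + L) g c' (t, a)) ^ (q - 1) *
              stp (A + K + L) g c (t, a)) := fun c => ((hms t).pow_const _).mul (hm1 c t)
          rw [lintegral_finsetSum _ (fun c _ => (hmm c).mul_const _)]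
          refine Finset.sum_congr rfl fun c _ => ?_
          rw [lintegral_mul_const _ (hmm c)]
      _ ≤ ∑ c ∈ S, ((1 + (C2 : ℝ≥0∞)) * al c t ^ (q - 1)) *
            (C * ∑ i ∈ J.filter (fun i => cl i = c), ω i ^ q * hc c i t ^ ((q - 1) * ((d : ℝ) + 1))) := by
          refine Finset.sum_le_sum fun c _ => mul_le_mul' ?_ ?_
          · exact hold (hm1 c t) (hms t) (by linarith) (by linarith) (hint c t)
          · exact hcp c t ht q hq1 hq2 ω
      _ = ((1 + (C2 : ℝ≥0∞)) * C) * ∑ c ∈ S, ∑ i ∈ J.filter (fun i => cl i = c),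
            ω i ^ q * (al (cl i) t ^ (q - 1) * hc (cl i) i t ^ ((q - 1) * ((d : ℝ) + 1))) := by
          rw [Finset.mul_sum]
          refine Finset.sum_congr rfl fun c _ => ?_
          rw [Finset.sum_congr rfl (fun i hi => by rw [(Finset.mem_filter.1 hi).2]; ring :
            ∀ i ∈ J.filter (fun i => cl i = c),
              ω i ^ q * (al (cl i) t ^ (q - 1) * hc (cl i) i t ^ ((q - 1) * ((d : ℝ) + 1))) =
              al c t ^ (q - 1) * (ω i ^ q * hc c i t ^ ((q - 1) * ((d : ℝ) + 1)))), ← Finset.mul_sum]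
          ring
      _ = ((1 + (C2 : ℝ≥0∞)) * C) * ∑ i ∈ J,
            ω i ^ q * (al (cl i) t ^ (q - 1) * hc (cl i) i t ^ ((q - 1) * ((d : ℝ) + 1))) := by
          rw [Finset.sum_fiberwise_of_maps_to (fun i hi => Finset.mem_image_of_mem cl hi)]
      _ = ((1 + (C2 : ℝ≥0∞)) * C) * ∑ i ∈ J, ω i ^ q *
            (al (cl i) t ^ (1 / ((d : ℝ) + 2)) * hc (cl i) i t ^ (((d : ℝ) + 1) / ((d : ℝ) + 2))) ^
              ((q - 1) * (((d + 1 : ℕ) : ℝ) + 1)) := by
          congr 1
          refine Finset.sum_congr rfl fun i _ => ?_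
          congr 1
          rw [hcast, ENNReal.mul_rpow_of_nonneg _ _ (by
            have : 0 ≤ q - 1 := by linarith
            positivity), ← ENNReal.rpow_mul, ← ENNReal.rpow_mul]
          congr 2
          · field_simp
          · field_simp
      _ ≤ _ := by
          apply mul_le_mul' _ le_rfl
          push_cast
          exact le_add_self

/-- **The pointwise estimate.** -/
theorem ptw {K A L : ℝ} (hK : 0 ≤ K) (hA : 0 < A) (hL : 0 ≤ L) (κ d : ℕ) :
    ∃ C : ℝ≥0, Ptw K A L κ d C := by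
  induction d with
  | zero => exact ptw_base hA hL κ
  | succ d ih =>
    obtain ⟨C, hC⟩ := ih
    exact ptw_step hK hA hL κ d hC

end Pool.Agent.N220.Kak
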