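import Pool.Agent.N220.Kak.Ptw2
import Pool.Agent.R134.Kak.Final

set_option autoImplicit false

/-! Reducible families of tubes: horizontal slices, mixed norms, the endpoint, unions. -/

open MeasureTheory Set ENNReal NNReal Metric
open Pool.Agent.R134.Kak
open Pool.Agent.H810R3.Tub (Space tube dir dir_sub_le tube_eq tube_closed Fe)

namespace Pool.Agent.N220.Kak

theorem Fe_meas {d : ℕ} {ι : Type} [Fintype ι] (δ : ℝ) (v β : ι → Vec d) (s : ι → ℝ) :
    Measurable (fun p : ℝ × Vec d => Fe δ v β s p.2 p.1) := by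
  unfold Fe
  refine Finset.measurable_fun_sum _ fun i _ => ?_
  have h1 : Measurable (fun y : Space d => (tube δ (dir (v i)) (WithLp.toLp 2 (β i + s i • v i, s i))).indicator
      (fun _ => (1 : ℝ≥0∞)) y) := measurable_const.indicator (tube_closed _ _ _).measurableSet
  have h2 : Measurable (fun p : ℝ × Vec d => (WithLp.toLp 2 (p.2, p.1) : Space d)) := by
    have := (WithLp.volume_preserving_toLp (Vec d) ℝ).measurable
    exact this.comp measurable_swap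
  exact h1.comp h2

/-- The hypotheses on the family. -/
structure Fam (e : ℕ) (K S : ℝ≥0) (δ : ℝ) {ι : Type} [Fintype ι] (v β : ι → Vec (e + 1)) (s : ι → ℝ) : Prop where
  pos : 0 < δ
  lt_one : δ < 1
  norm_le : ∀ i, ‖v i‖ ≤ 1
  height_le : ∀ i, |s i| ≤ S
  sep : ∀ i j, i ≠ j → δ ≤ ‖dir (v i) - dir (v j)‖
  red : Red K (e + 1) Finset.univ (fun i => δ⁻¹ • v i) (fun i => δ⁻¹ • β i)

/-- The weighted sum of the indicators of the tubes. -/
noncomputable def Fw {d : ℕ} {ι : Type} [Fintype ι] (δ : ℝ) (w : ι → ℝ≥0∞) (v β : ι → Vec d) (s : ι → ℝ) (x : Vec d)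
    (t : ℝ) : ℝ≥0∞ :=
  ∑ i, w i * (tube δ (dir (v i)) (WithLp.toLp 2 (β i + s i • v i, s i))).indicator (fun _ => (1 : ℝ≥0∞))
    (WithLp.toLp 2 (x, t))

theorem Fw_one {d : ℕ} {ι : Type} [Fintype ι] (δ : ℝ) (v β : ι → Vec d) (s : ι → ℝ) (x : Vec d) (t : ℝ) :
    Fw δ (fun _ => 1) v β s x t = Fe δ v β s x t := by
  unfold Fw Fe
  simp only [one_mul]

/-- **The horizontal slices of a reducible family of tubes.** -/
theorem slices (e : ℕ) (K S : ℝ≥0) : ∃ C : ℝ≥0, ∀ (δ : ℝ) (ι : Type) [Fintype ι]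
    (v β : ι → Vec (e + 1)) (s : ι → ℝ), Fam e K S δ v β s →
    ∃ h : ι → ℝ → ℝ≥0∞, (∀ i, Measurable (h i)) ∧ (∀ i, ∫⁻ t, h i t ≤ C * ell (Fintype.card ι)) ∧
      ∀ (t q : ℝ), 1 ≤ q → q ≤ 2 → ∀ w : ι → ℝ≥0∞, ∫⁻ x, Fw δ w v β s x t ^ q ≤
        ENNReal.ofReal (δ ^ (e + 1)) * (C * ∑ i, w i ^ q * h i t ^ ((q - 1) * ((e : ℝ) + 1))) := by
  classical
  have hS0 : (0 : ℝ) ≤ S := S.2
  obtain ⟨C, hmain⟩ := ptw (K := K) (A := 2) (L := S + 3 / 2) K.2 (by norm_num) (by linarith)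
    ((2 * (e + 1 + 2)) ^ (e + 1)) e
  refine ⟨C, ?_⟩
  rintro δ ι _ v β s ⟨hδ, hδ1, hv, hs, hsep, hR⟩
  have hsep' : ∀ i j, i ≠ j → δ ≤ ‖v i - v j‖ := fun i j hij => (hsep i j hij).trans (dir_sub_le _ _)
  have hM : Mult ((2 * (e + 1 + 2)) ^ (e + 1)) (e + 1) Finset.univ (fun i => δ⁻¹ • v i) := by
    intro J' _ hJ'
    have h := pack J' (fun i => δ⁻¹ • v i) (by
      intro i _ j _ hij
      rw [← smul_sub, norm_smul, norm_inv, Real.norm_eq_abs, abs_of_pos hδ]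
      have := hsep' i j hij
      rw [inv_mul_eq_div, le_div_iff₀ hδ]
      linarith) hJ'
    exact h
  obtain ⟨h, hm, hi, hp⟩ := hmain ι Finset.univ (fun i => δ⁻¹ • v i) (fun i => δ⁻¹ • β i) (Fintype.card ι)
    (le_of_eq Finset.card_univ) hR hM
  set I : Set ℝ := Icc (-((S : ℝ) + 3 / 2)) ((S : ℝ) + 3 / 2) with hI
  refine ⟨fun i => I.indicator (h i), fun i => (hm i).indicator measurableSet_Icc, ?_, ?_⟩
  · intro i
    rw [lintegral_indicator measurableSet_Icc]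
    exact hi i (Finset.mem_univ i)
  · intro t q hq1 hq2 w
    have hq0 : 0 < q := by linarith
    have hterm : ∀ x i, (WithLp.toLp 2 (x, t) : Space (e + 1)) ∈ tube δ (dir (v i)) (WithLp.toLp 2 (β i + s i • v i, s i)) →
        t ∈ I ∧ tub 2 (fun i => δ⁻¹ • v i) (fun i => δ⁻¹ • β i) i (t, δ⁻¹ • x) = 1 := by
      intro x i hmem
      rw [tube_eq] at hmem
      obtain ⟨ht, hx⟩ := Pool.Agent.H803R2.KakFTO.tube_subset hδ hδ1 (fun _ => β i) (hv i) (s i) hmem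
      have h1 := abs_le.1 (hs i)
      refine ⟨⟨by linarith [ht.1], by linarith [ht.2]⟩, ?_⟩
      unfold tub
      apply indicator_of_mem
      show ‖δ⁻¹ • x - (δ⁻¹ • β i + t • δ⁻¹ • v i)‖ ≤ 2
      have e1 : δ⁻¹ • x - (δ⁻¹ • β i + t • δ⁻¹ • v i) = δ⁻¹ • (x - (β i + t • v i)) := by
        rw [smul_sub, smul_add, smul_comm t]
      rw [e1, norm_smul, norm_inv, Real.norm_eq_abs, abs_of_pos hδ, inv_mul_le_iff₀ hδ]
      linarith
    by_cases ht : t ∈ I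
    · have h1 : ∀ x, Fw δ w v β s x t ≤
          ∑ i, w i * tub 2 (fun i => δ⁻¹ • v i) (fun i => δ⁻¹ • β i) i (t, δ⁻¹ • x) := by
        intro x
        unfold Fw
        refine Finset.sum_le_sum fun i _ => mul_le_mul' le_rfl ?_
        by_cases hmm : (WithLp.toLp 2 (x, t) : Space (e + 1)) ∈ tube δ (dir (v i)) (WithLp.toLp 2 (β i + s i • v i, s i))
        · rw [indicator_of_mem hmm, (hterm x i hmm).2]
        · rw [indicator_of_notMem hmm]
          exact zero_le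
      have hGm : Measurable (fun x => (∑ i, w i * tub 2 (fun i => δ⁻¹ • v i) (fun i => δ⁻¹ • β i) i (t, x)) ^ q) :=
        (Finset.measurable_fun_sum _ fun i _ => ((tub_meas _ _ _ i).comp
          (measurable_const.prodMk measurable_id)).const_mul _).pow_const q
      calc ∫⁻ x, Fw δ w v β s x t ^ q
          ≤ ∫⁻ x : Vec (e + 1), (∑ i, w i * tub 2 (fun i => δ⁻¹ • v i) (fun i => δ⁻¹ • β i) i (t, δ⁻¹ • x)) ^ q :=
            lintegral_mono fun x => ENNReal.rpow_le_rpow (h1 x) hq0.le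
        _ = ENNReal.ofReal (δ ^ (e + 1)) *
              ∫⁻ x : Vec (e + 1), (∑ i, w i * tub 2 (fun i => δ⁻¹ • v i) (fun i => δ⁻¹ • β i) i (t, x)) ^ q :=
            lint_scale hδ (fun x => (∑ i, w i * tub 2 (fun i => δ⁻¹ • v i) (fun i => δ⁻¹ • β i) i (t, x)) ^ q) hGm
        _ ≤ ENNReal.ofReal (δ ^ (e + 1)) * (C * ∑ i, w i ^ q * h i t ^ ((q - 1) * ((e : ℝ) + 1))) :=
            mul_le_mul' le_rfl (hp t ht q hq1 hq2 w)
        _ = _ := by
            congr 2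
            refine Finset.sum_congr rfl fun i _ => ?_
            show _ = w i ^ q * (I.indicator (h i) t) ^ _
            rw [indicator_of_mem ht]
    · have h1 : ∀ x, Fw δ w v β s x t ^ q = 0 := by
        intro x
        have : Fw δ w v β s x t = 0 := by
          unfold Fw
          refine Finset.sum_eq_zero fun i _ => ?_
          rw [indicator_of_notMem (fun hmm => ht (hterm x i hmm).1) _, mul_zero]
        rw [this, ENNReal.zero_rpow_of_pos hq0]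
      simp [h1]

/-- **The mixed norm inequality.** -/
theorem mixed (e : ℕ) (K S : ℝ≥0) {q : ℝ} (hq : 1 < q) (hq2 : (q - 1) * ((e : ℝ) + 1) ≤ 1) :
    ∃ C : ℝ≥0, ∀ (δ : ℝ) (ι : Type) [Fintype ι] (v β : ι → Vec (e + 1)) (s : ι → ℝ), Fam e K S δ v β s →
      ∀ w : ι → ℝ≥0∞, ∫⁻ t : ℝ, (∫⁻ x, Fw δ w v β s x t ^ q) ^ (1 / ((q - 1) * ((e : ℝ) + 1))) ≤
        C * (ENNReal.ofReal (δ ^ (e + 1)) * ∑ i, w i ^ q) ^ (1 / ((q - 1) * ((e : ℝ) + 1))) *
          ell (Fintype.card ι) := by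
  classical
  obtain ⟨C, hC⟩ := slices e K S
  have he : (0 : ℝ) < (e : ℝ) + 1 := by positivity
  set θ : ℝ := (q - 1) * ((e : ℝ) + 1) with hθ
  have hθ0 : 0 < θ := mul_pos (by linarith) he
  have hs1 : 1 ≤ 1 / θ := by rw [le_div_iff₀ hθ0]; linarith
  have hs0 : 0 ≤ 1 / θ := by linarith
  have hq22 : q ≤ 2 := by
    have : (0 : ℝ) ≤ e := Nat.cast_nonneg e
    nlinarith
  refine ⟨C ^ (1 / θ) * C, ?_⟩
  intro δ ι _ v β s hF w
  obtain ⟨h, hm, hi, hp⟩ := hC δ ι v β s hF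
  set N : ℕ := Fintype.card ι with hN
  set D : ℝ≥0∞ := ENNReal.ofReal (δ ^ (e + 1)) with hD
  set W : ℝ≥0∞ := ∑ i, w i ^ q with hW
  have hpt : ∀ t, (∫⁻ x, Fw δ w v β s x t ^ q) ^ (1 / θ) ≤
      (D * C) ^ (1 / θ) * (W ^ (1 / θ - 1) * ∑ i, w i ^ q * h i t) := by
    intro t
    have h1 := hp t q hq.le hq22 w
    have h2 := pw (Finset.univ : Finset ι) (fun i => w i ^ q) (fun i => h i t ^ θ) hs1
    have e2 : ∀ i, (h i t ^ θ) ^ (1 / θ) = h i t := by
      intro i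
      rw [← ENNReal.rpow_mul, mul_one_div_cancel hθ0.ne', ENNReal.rpow_one]
    simp only [e2] at h2
    calc (∫⁻ x, Fw δ w v β s x t ^ q) ^ (1 / θ)
        ≤ (D * (C * ∑ i, w i ^ q * h i t ^ θ)) ^ (1 / θ) := ENNReal.rpow_le_rpow h1 hs0
      _ = (D * C) ^ (1 / θ) * (∑ i, w i ^ q * h i t ^ θ) ^ (1 / θ) := by
          rw [← mul_assoc, ENNReal.mul_rpow_of_nonneg _ _ hs0]
      _ ≤ _ := mul_le_mul' le_rfl h2
  have hsm : Measurable (fun t => ∑ i, w i ^ q * h i t) :=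
    Finset.measurable_fun_sum _ fun i _ => (hm i).const_mul _
  calc ∫⁻ t : ℝ, (∫⁻ x, Fw δ w v β s x t ^ q) ^ (1 / θ)
      ≤ ∫⁻ t : ℝ, (D * C) ^ (1 / θ) * (W ^ (1 / θ - 1) * ∑ i, w i ^ q * h i t) := lintegral_mono hpt
    _ = (D * C) ^ (1 / θ) * (W ^ (1 / θ - 1) * ∑ i, w i ^ q * ∫⁻ t, h i t) := by
        rw [lintegral_const_mul _ (hsm.const_mul _), lintegral_const_mul _ hsm,
          lintegral_finsetSum _ (fun i _ => (hm i).const_mul _)]
        congr 2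
        refine Finset.sum_congr rfl fun i _ => ?_
        rw [lintegral_const_mul _ (hm i)]
    _ ≤ (D * C) ^ (1 / θ) * (W ^ (1 / θ - 1) * ∑ i : ι, w i ^ q * (C * ell N)) := by
        gcongr with i _
        exact hi i
    _ = (D * C) ^ (1 / θ) * (W ^ (1 / θ - 1) * W ^ (1 : ℝ)) * (C * ell N) := by
        rw [← Finset.sum_mul, ENNReal.rpow_one]
        ring
    _ = (D * C) ^ (1 / θ) * W ^ (1 / θ) * (C * ell N) := by
        rw [← ENNReal.rpow_add_of_nonneg _ _ (by linarith) zero_le_one]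
        congr 3
        ring
    _ = ((C : ℝ≥0∞) ^ (1 / θ) * C) * (D * W) ^ (1 / θ) * ell N := by
        rw [ENNReal.mul_rpow_of_nonneg _ _ hs0, ENNReal.mul_rpow_of_nonneg _ _ hs0]
        ring
    _ = _ := by
        congr 2
        push_cast
        rw [ENNReal.coe_rpow_of_nonneg _ hs0]

/-- **The endpoint.** -/
theorem endpoint (e : ℕ) (K S : ℝ≥0) :
    ∃ C : ℝ≥0, ∀ (δ : ℝ) (ι : Type) [Fintype ι] (v β : ι → Vec (e + 1)) (s : ι → ℝ), Fam e K S δ v β s →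
      ∫⁻ t : ℝ, ∫⁻ x, Fe δ v β s x t ^ (1 + 1 / ((e : ℝ) + 1)) ≤
        C * (ENNReal.ofReal (δ ^ (e + 1)) * Fintype.card ι) * ell (Fintype.card ι) := by
  have he : (0 : ℝ) < (e : ℝ) + 1 := by positivity
  have hin : (0 : ℝ) < 1 / ((e : ℝ) + 1) := by positivity
  have hθ : (1 + 1 / ((e : ℝ) + 1) - 1) * ((e : ℝ) + 1) = 1 := by field_simp; ring
  obtain ⟨C, hC⟩ := mixed e K S (q := 1 + 1 / ((e : ℝ) + 1)) (by linarith) hθ.le
  refine ⟨C, ?_⟩
  intro δ ι _ v β s hF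
  have h := hC δ ι v β s hF (fun _ => 1)
  rw [hθ] at h
  simp only [Fw_one] at h
  simpa using h

end Pool.Agent.N220.Kak
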