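import Pool.Agent.N220.Kak.Tubes

set_option autoImplicit false

/-! The volume of the union of large subsets of the tubes of a family. -/

open MeasureTheory Set ENNReal NNReal Metric
open Pool.Agent.R134.Kak
open Pool.Agent.H810R3.Tub (Space tube dir dir_sub_le tube_eq tube_closed Fe)

namespace Pool.Agent.N220.Kak

variable {d : ℕ}

/-- The sum of the indicators of the tubes, as a function on the space. -/
noncomputable def Fs {ι : Type} [Fintype ι] (δ : ℝ) (v β : ι → Vec d) (s : ι → ℝ) (y : Space d) : ℝ≥0∞ :=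
  ∑ i, (tube δ (dir (v i)) (WithLp.toLp 2 (β i + s i • v i, s i))).indicator (fun _ => (1 : ℝ≥0∞)) y

theorem Fs_meas {ι : Type} [Fintype ι] (δ : ℝ) (v β : ι → Vec d) (s : ι → ℝ) : Measurable (Fs δ v β s) := by
  unfold Fs
  exact Finset.measurable_fun_sum _ fun i _ => measurable_const.indicator (tube_closed _ _ _).measurableSet

theorem Fs_fub {ι : Type} [Fintype ι] (δ : ℝ) (v β : ι → Vec d) (s : ι → ℝ) (q : ℝ) :
    ∫⁻ y, Fs δ v β s y ^ q = ∫⁻ t : ℝ, ∫⁻ x : Vec d, Fe δ v β s x t ^ q :=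
  fub ((Fs_meas δ v β s).pow_const q)

/-- Hölder's inequality: the sum of the volumes of subsets of the tubes. -/
theorem sum_vol_le {ι : Type} [Fintype ι] (δ : ℝ) (v β : ι → Vec d) (s : ι → ℝ) (Y : ι → Set (Space d))
    (hYm : ∀ i, MeasurableSet (Y i))
    (hY : ∀ i, Y i ⊆ tube δ (dir (v i)) (WithLp.toLp 2 (β i + s i • v i, s i))) {θ : ℝ} (h0 : 0 < θ) (h1 : θ < 1) :
    ∑ i, volume (Y i) ≤ (∫⁻ y, Fs δ v β s y ^ (1 / θ)) ^ θ * volume (⋃ i, Y i) ^ (1 - θ) := by
  classical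
  have hUm : MeasurableSet (⋃ i, Y i) := MeasurableSet.iUnion hYm
  have e1 : ∑ i, volume (Y i) = ∫⁻ y, ∑ i, (Y i).indicator (fun _ => (1 : ℝ≥0∞)) y := by
    rw [lintegral_finsetSum _ (fun i _ => measurable_const.indicator (hYm i))]
    refine Finset.sum_congr rfl fun i _ => ?_
    rw [lintegral_indicator_const (hYm i), one_mul]
  have h2 := ENNReal.lintegral_mul_norm_pow_le (μ := (volume : Measure (Space d)))
    (f := fun y => Fs δ v β s y ^ (1 / θ)) (g := (⋃ i, Y i).indicator (fun _ => (1 : ℝ≥0∞)))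
    ((Fs_meas δ v β s).pow_const _).aemeasurable (measurable_const.indicator hUm).aemeasurable h0.le
    (by linarith : (0 : ℝ) ≤ 1 - θ) (by ring)
  rw [lintegral_indicator_const hUm, one_mul] at h2
  rw [e1]
  refine le_trans (lintegral_mono fun y => ?_) h2
  show ∑ i, (Y i).indicator (fun _ => (1 : ℝ≥0∞)) y ≤
    (Fs δ v β s y ^ (1 / θ)) ^ θ * (⋃ i, Y i).indicator (fun _ => (1 : ℝ≥0∞)) y ^ (1 - θ)
  rw [← ENNReal.rpow_mul, one_div_mul_cancel h0.ne', ENNReal.rpow_one]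
  by_cases hy : y ∈ ⋃ i, Y i
  · rw [indicator_of_mem hy, ENNReal.one_rpow, mul_one]
    unfold Fs
    refine Finset.sum_le_sum fun i _ => ?_
    exact indicator_le_indicator_of_subset (hY i) (fun _ => zero_le) y
  · have : ∑ i, (Y i).indicator (fun _ => (1 : ℝ≥0∞)) y = 0 := by
      refine Finset.sum_eq_zero fun i _ => ?_
      apply indicator_of_notMem
      intro h
      exact hy (mem_iUnion.2 ⟨i, h⟩)
    rw [this]
    exact zero_le

/-- The volume of a tube. -/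
theorem tube_ge (e : ℕ) : ∃ c : ℝ≥0, 0 < c ∧ ∀ (δ : ℝ) (v β : Vec (e + 1)) (s : ℝ), 0 < δ → δ < 1 → ‖v‖ ≤ 1 →
    c * ENNReal.ofReal (δ ^ (e + 1)) ≤ volume (tube δ (dir v) (WithLp.toLp 2 (β + s • v, s))) := by
  have hV0 : 0 < volume (closedBall (0 : Vec (e + 1)) 1) := measure_closedBall_pos _ _ one_pos
  have hVt : volume (closedBall (0 : Vec (e + 1)) 1) ≠ ∞ := measure_closedBall_lt_top.ne
  set V : ℝ := (volume (closedBall (0 : Vec (e + 1)) 1)).toReal with hV
  have hVr : 0 < V := ENNReal.toReal_pos hV0.ne' hVt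
  have hVe : volume (closedBall (0 : Vec (e + 1)) 1) = ENNReal.ofReal V := (ENNReal.ofReal_toReal hVt).symm
  refine ⟨(1 / 4 * (1 / 4) ^ (e + 1) * V).toNNReal, Real.toNNReal_pos.2 (by positivity), ?_⟩
  intro δ v β s hδ hδ1 hv
  have h := Pool.Agent.H803R2.KakFTO.le_volume_tube hδ hδ1 (fun _ => β) hv s
  rw [tube_eq]
  refine le_trans (le_of_eq ?_) h
  rw [Measure.addHaar_closedBall _ _ (by positivity : (0 : ℝ) ≤ δ / 4), finrank_euclideanSpace, Fintype.card_fin]
  rw [← Measure.addHaar_closedBall_eq_addHaar_ball (volume : Measure (Vec (e + 1))), hVe]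
  show ENNReal.ofReal _ * _ = _
  rw [← ENNReal.ofReal_mul (by positivity), ← ENNReal.ofReal_mul (by positivity), ← ENNReal.ofReal_mul (by positivity)]
  congr 1
  rw [div_eq_mul_one_div, mul_pow]
  ring

/-- **Unions of large subsets of the tubes of a reducible family.** -/
theorem union (e : ℕ) (K S : ℝ≥0) : ∃ c : ℝ, 0 < c ∧
    ∀ (δ : ℝ) (ι : Type) [Fintype ι] (v β : ι → Vec (e + 1)) (s : ι → ℝ), Fam e K S δ v β s →
    ∀ (lam : ℝ) (Y : ι → Set (Space (e + 1))), 0 ≤ lam → (∀ i, MeasurableSet (Y i)) →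
      (∀ i, Y i ⊆ tube δ (dir (v i)) (WithLp.toLp 2 (β i + s i • v i, s i))) →
      ENNReal.ofReal lam * ∑ i, volume (tube δ (dir (v i)) (WithLp.toLp 2 (β i + s i • v i, s i))) ≤
        ∑ i, volume (Y i) →
      ENNReal.ofReal (c * lam ^ (e + 2) * (δ ^ (e + 1) * Fintype.card ι) / (1 + Real.log (Fintype.card ι)) ^ (e + 1)) ≤
        volume (⋃ i, Y i) := by
  classical
  obtain ⟨C, hC⟩ := endpoint e K S
  obtain ⟨c₀, hc₀, htube⟩ := tube_ge e
  have he : (0 : ℝ) < (e : ℝ) + 1 := by positivity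
  have he2 : (0 : ℝ) < (e : ℝ) + 2 := by positivity
  have hc₀' : (0 : ℝ) < c₀ := hc₀
  refine ⟨(c₀ : ℝ) ^ (e + 2) / ((C : ℝ) + 1) ^ (e + 1), by positivity, ?_⟩
  intro δ ι _ v β s hF lam Y hlam hYm hY hsum
  have hδ := hF.pos
  rcases isEmpty_or_nonempty ι with hι | hι
  · have : Fintype.card ι = 0 := Fintype.card_eq_zero
    rw [this]
    simp
  set N : ℕ := Fintype.card ι with hN
  have hN0 : (0 : ℝ) < N := by
    rw [hN]
    exact_mod_cast Fintype.card_pos
  set l : ℝ := 1 + Real.log N with hl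
  have hl0 : 0 < l := ell_real_pos N
  set θ : ℝ := ((e : ℝ) + 1) / ((e : ℝ) + 2) with hθ
  have hθ0 : 0 < θ := by positivity
  have hθ1 : θ < 1 := by
    rw [hθ, div_lt_one he2]
    linarith
  have hθi : 1 / θ = 1 + 1 / ((e : ℝ) + 1) := by
    rw [hθ]
    field_simp
    ring
  have h1 := sum_vol_le δ v β s Y hYm hY hθ0 hθ1
  rw [hθi, Fs_fub] at h1
  have h2 := hC δ ι v β s hF
  set m : ℝ := δ ^ (e + 1) * N with hm
  have hm0 : 0 < m := by positivity
  have e3 : (C : ℝ≥0∞) * (ENNReal.ofReal (δ ^ (e + 1)) * N) * ell N = ENNReal.ofReal (C * m * l) := by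
    rw [ell, ← ENNReal.ofReal_natCast, ← ENNReal.ofReal_mul (by positivity), ← ENNReal.ofReal_coe_nnreal,
      ← ENNReal.ofReal_mul (NNReal.coe_nonneg C), ← ENNReal.ofReal_mul (by positivity)]
  rw [e3] at h2
  -- the lower bound of the sum
  have h3 : ENNReal.ofReal (lam * (c₀ * m)) ≤ ∑ i, volume (Y i) := by
    refine le_trans ?_ hsum
    rw [ENNReal.ofReal_mul hlam]
    apply mul_le_mul' le_rfl
    calc ENNReal.ofReal (c₀ * m) = ∑ _i : ι, (c₀ : ℝ≥0∞) * ENNReal.ofReal (δ ^ (e + 1)) := by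
          rw [Finset.sum_const, Finset.card_univ, nsmul_eq_mul, ← ENNReal.ofReal_natCast, ← ENNReal.ofReal_coe_nnreal,
            ← ENNReal.ofReal_mul (by positivity), ← ENNReal.ofReal_mul (by positivity)]
          congr 1
          rw [hm]
          ring
      _ ≤ _ := Finset.sum_le_sum fun i _ => htube δ (v i) (β i) (s i) hF.pos hF.lt_one (hF.norm_le i)
  have h4 : ENNReal.ofReal (lam * (c₀ * m)) ≤ ENNReal.ofReal (C * m * l) ^ θ * volume (⋃ i, Y i) ^ (1 - θ) :=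
    h3.trans (h1.trans (mul_le_mul' (ENNReal.rpow_le_rpow h2 hθ0.le) le_rfl))
  -- raise to the power `e + 2`
  have h5 : ENNReal.ofReal ((lam * (c₀ * m)) ^ (e + 2)) ≤ ENNReal.ofReal ((((C : ℝ) + 1) * m * l) ^ (e + 1)) *
      volume (⋃ i, Y i) := by
    have h6 := ENNReal.rpow_le_rpow h4 he2.le
    have e6 : ENNReal.ofReal (lam * (c₀ * m)) ^ ((e : ℝ) + 2) = ENNReal.ofReal ((lam * (c₀ * m)) ^ (e + 2)) := by
      rw [ENNReal.ofReal_rpow_of_nonneg (by positivity) he2.le]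
      congr 1
      rw [← Real.rpow_natCast]
      push_cast
      rfl
    rw [e6, ENNReal.mul_rpow_of_nonneg _ _ he2.le, ← ENNReal.rpow_mul, ← ENNReal.rpow_mul] at h6
    have e7 : θ * ((e : ℝ) + 2) = ((e + 1 : ℕ) : ℝ) := by
      rw [hθ]
      field_simp
      push_cast
      ring
    have e8 : (1 - θ) * ((e : ℝ) + 2) = 1 := by
      rw [hθ]
      field_simp
      ring
    rw [e7, e8, ENNReal.rpow_one, ENNReal.rpow_natCast, ← ENNReal.ofReal_pow (by positivity)] at h6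
    refine h6.trans (mul_le_mul' (ENNReal.ofReal_le_ofReal ?_) le_rfl)
    gcongr
    linarith
  have hden : 0 < (((C : ℝ) + 1) * m * l) ^ (e + 1) := by positivity
  have hdn : ENNReal.ofReal ((((C : ℝ) + 1) * m * l) ^ (e + 1)) ≠ 0 := (ENNReal.ofReal_pos.2 hden).ne'
  have h7 : ENNReal.ofReal ((lam * (c₀ * m)) ^ (e + 2)) / ENNReal.ofReal ((((C : ℝ) + 1) * m * l) ^ (e + 1)) ≤
      volume (⋃ i, Y i) := by
    rw [ENNReal.div_le_iff hdn ENNReal.ofReal_ne_top]
    exact h5.trans (le_of_eq (mul_comm _ _))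
  refine le_trans (le_of_eq ?_) h7
  rw [← ENNReal.ofReal_div_of_pos hden]
  congr 1
  clear_value m l
  rw [mul_pow, mul_pow, mul_pow, mul_pow, pow_succ m (e + 1)]
  field_simp

end Pool.Agent.N220.Kak
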